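import Mathlib

/-!
# The closure system on `ℕ × Bool`

Each `j` carries one rule: from the two nodes `(j, false)`, `(j, true)` derive the node `s j`,
provided the index of `s j` is smaller than `j`. Every node is the target of infinitely many rules.
-/

set_option autoImplicit false

namespace Pool.Agent.helper51.Clo

abbrev Node : Type := ℕ × Bool

/-- the target of the rule with index `j`. -/
def s (j : ℕ) : Node := ((Nat.unpair j).1 / 2, decide ((Nat.unpair j).1 % 2 = 1))

theorem exists_rule (m : Node) (b : ℕ) : ∃ j, b < j ∧ s j = m := by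
  obtain ⟨i, c⟩ := m
  cases c
  · refine ⟨Nat.pair (2 * i) (b + 1), lt_of_lt_of_le (Nat.lt_succ_self b) (Nat.right_le_pair _ _), ?_⟩
    simp only [s, Nat.unpair_pair]
    ext <;> simp
  · refine ⟨Nat.pair (2 * i + 1) (b + 1), lt_of_lt_of_le (Nat.lt_succ_self b) (Nat.right_le_pair _ _), ?_⟩
    simp only [s, Nat.unpair_pair]
    ext
    · simp; omega
    · simp

/-- the nodes derivable from `A`. -/
inductive Cl (A : Set Node) : Node → Prop
  | base (n : Node) (h : n ∈ A) : Cl A n
  | step (j : ℕ) (h : (s j).1 < j) (h0 : Cl A (j, false)) (h1 : Cl A (j, true)) : Cl A (s j)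

def cl (A : Set Node) : Set Node := {n | Cl A n}

/-- closed sets of nodes. -/
def Closed (T : Set Node) : Prop :=
  ∀ j, (s j).1 < j → (j, false) ∈ T → (j, true) ∈ T → s j ∈ T

theorem closed_cl (A : Set Node) : Closed (cl A) := fun j h h0 h1 => Cl.step j h h0 h1

theorem subset_cl (A : Set Node) : A ⊆ cl A := fun n h => Cl.base n h

theorem cl_min {A T : Set Node} (hT : Closed T) (h : A ⊆ T) : cl A ⊆ T := by
  intro n hn
  induction hn with
  | base n h1 => exact h h1
  | step j h1 _ _ ih0 ih1 => exact hT j h1 ih0 ih1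

theorem cl_mono {A B : Set Node} (h : A ⊆ B) : cl A ⊆ cl B :=
  cl_min (closed_cl B) (h.trans (subset_cl B))

theorem cl_eq {T : Set Node} (hT : Closed T) : cl T = T :=
  Set.Subset.antisymm (cl_min hT subset_rfl) (subset_cl T)

theorem cl_le_cl {A B : Set Node} (h : A ⊆ cl B) : cl A ⊆ cl B := cl_min (closed_cl B) h

theorem cl_finitary {A : Set Node} {n : Node} (h : n ∈ cl A) :
    ∃ F : Finset Node, (F : Set Node) ⊆ A ∧ n ∈ cl (F : Set Node) := by
  classical
  induction h with
  | base n h1 => exact ⟨{n}, by simpa using h1, Cl.base n (by simp)⟩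
  | step j h1 _ _ ih0 ih1 =>
    obtain ⟨F, hF, hF'⟩ := ih0
    obtain ⟨G, hG, hG'⟩ := ih1
    refine ⟨F ∪ G, ?_, ?_⟩
    · rw [Finset.coe_union]; exact Set.union_subset hF hG
    · refine Cl.step j h1 (cl_mono ?_ hF') (cl_mono ?_ hG')
      · rw [Finset.coe_union]; exact Set.subset_union_left
      · rw [Finset.coe_union]; exact Set.subset_union_right

/-- adding nodes of index at most `b` to a closed set adds only nodes of index at most `b`. -/
theorem cl_bound {T F : Set Node} {b : ℕ} (hT : Closed T) (hF : ∀ n ∈ F, n.1 ≤ b) :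
    cl (T ∪ F) ⊆ T ∪ {n | n.1 ≤ b} := by
  intro n hn
  induction hn with
  | base n h1 =>
    rcases h1 with h1 | h1
    · exact Or.inl h1
    · exact Or.inr (hF n h1)
  | step j h1 _ _ ih0 ih1 =>
    rcases ih0 with h2 | h2
    · rcases ih1 with h3 | h3
      · exact Or.inl (hT j h1 h2 h3)
      · right; have h3' : j ≤ b := h3; show (s j).1 ≤ b; omega
    · right; have h3' : j ≤ b := h2; show (s j).1 ≤ b; omega

theorem finite_le (b : ℕ) : {n : Node | n.1 ≤ b}.Finite := by
  refine ((Set.finite_Iic b).prod (Set.finite_univ (α := Bool))).subset ?_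
  rintro ⟨i, c⟩ h
  exact ⟨h, Set.mem_univ _⟩

/-- elements derivable from `A` can be derived from strictly later elements of `B` and from `Z`
as soon as this holds for the elements of `A`. -/
theorem cl_later {A B Z : Set Node}
    (h : ∀ a ∈ A, a ∈ cl ({k | k ∈ B ∧ a.1 < k.1} ∪ Z)) {n : Node} (hn : n ∈ cl A) :
    n ∈ cl ({k | k ∈ B ∧ n.1 < k.1} ∪ Z) := by
  induction hn with
  | base n h1 => exact h n h1
  | step j h1 _ _ ih0 ih1 =>
    have h2 : cl ({k | k ∈ B ∧ j < k.1} ∪ Z) ⊆ cl ({k | k ∈ B ∧ (s j).1 < k.1} ∪ Z) := by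
      apply cl_mono
      apply Set.union_subset_union_left
      rintro k ⟨hk, hk'⟩
      exact ⟨hk, h1.trans hk'⟩
    exact Cl.step j h1 (h2 ih0) (h2 ih1)

end Pool.Agent.helper51.Clo
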