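import Mathlib
import Pool.Agent.helper51.Clo.Node

/-!
# Extending a good assignment to a larger countable sublattice
-/

set_option autoImplicit false

namespace Pool.Agent.helper51.Clo

theorem cl_bound_lt {T F : Set Node} {b : ℕ} (hT : Closed T) (hF : ∀ n ∈ F, n.1 < b) :
    cl (T ∪ F) ⊆ T ∪ {n | n.1 < b} := by
  intro n hn
  induction hn with
  | base n h1 =>
    rcases h1 with h1 | h1
    · exact Or.inl h1
    · exact Or.inr (hF n h1)
  | step j h1 _ _ ih0 ih1 =>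
    rcases ih0 with h2 | h2
    · rcases ih1 with h3 | h3
      · exact Or.inl (hT j h1 h2 h3)
      · right; have h3' : j < b := h3; show (s j).1 < b; omega
    · right; have h3' : j < b := h2; show (s j).1 < b; omega

/-- a good assignment of closed sets of nodes to the elements of a sublattice `S`. -/
structure Good {L : Type} [Lattice L] [BoundedOrder L] (S : Set L) (T : L → Set Node) : Prop where
  bot_mem : ⊥ ∈ S
  top_mem : ⊤ ∈ S
  sup_mem : ∀ x ∈ S, ∀ y ∈ S, x ⊔ y ∈ S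
  inf_mem : ∀ x ∈ S, ∀ y ∈ S, x ⊓ y ∈ S
  bot : T ⊥ = ∅
  top : T ⊤ = Set.univ
  closed : ∀ x ∈ S, Closed (T x)
  mono : ∀ x ∈ S, ∀ y ∈ S, x ≤ y → T x ⊆ T y
  fin : ∀ x ∈ S, ∀ y ∈ S, ((T x ∩ T y) \ T (x ⊓ y)).Finite
  rich : ∀ x ∈ S, ∀ y ∈ S, x ≠ ⊥ → y ≠ ⊥ → ∀ m ∈ T (x ⊔ y), ∀ V : Finset L, (∀ v ∈ V, v ∈ S) →
    ∀ b : ℕ, ∃ j, b < j ∧ s j = m ∧ (j, false) ∈ T x ∧ (j, true) ∈ T y ∧
      ∀ v ∈ V, ((j, false) ∈ T v → x ≤ v) ∧ ((j, true) ∈ T v → y ≤ v)

/-- the list of the first `i` values of a sequence, latest first. -/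
def pre {τ : Type} (f : ℕ → τ) : ℕ → List τ
  | 0 => []
  | i + 1 => f i :: pre f i

theorem mem_pre {τ : Type} {f : ℕ → τ} {i : ℕ} {e : τ} : e ∈ pre f i ↔ ∃ k < i, f k = e := by
  induction i with
  | zero => simp [pre]
  | succ i ih =>
    simp only [pre, List.mem_cons, ih]
    constructor
    · rintro (h | ⟨k, hk, h⟩)
      · exact ⟨i, Nat.lt_succ_self i, h.symm⟩
      · exact ⟨k, by omega, h⟩
    · rintro ⟨k, hk, h⟩
      rcases Nat.lt_succ_iff_lt_or_eq.1 hk with h1 | h1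
      · exact Or.inr ⟨k, h1, h⟩
      · left; rw [← h, h1]

theorem length_pre {τ : Type} (f : ℕ → τ) (i : ℕ) : (pre f i).length = i := by
  induction i with
  | zero => rfl
  | succ i ih => simp [pre, ih]

theorem exists_seq {τ : Type} (P : List τ → τ → Prop) (I : List τ → Prop) (h0 : I [])
    (hs : ∀ l, I l → ∃ e, P l e ∧ I (e :: l)) : ∃ f : ℕ → τ, ∀ i, P (pre f i) (f i) := by
  classical
  have hs' : ∀ l : {l : List τ // I l}, ∃ e, P l.1 e ∧ I (e :: l.1) := fun l => hs l.1 l.2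
  choose nx h1 h2 using hs'
  let g : ℕ → {l : List τ // I l} := fun i => Nat.rec ⟨[], h0⟩ (fun _ l => ⟨nx l :: l.1, h2 l⟩) i
  have hpre : ∀ i, pre (fun k => nx (g k)) i = (g i).1 := by
    intro i
    induction i with
    | zero => rfl
    | succ i ih =>
      show nx (g i) :: pre (fun k => nx (g k)) i = _
      rw [ih]
  refine ⟨fun i => nx (g i), fun i => ?_⟩
  rw [hpre]
  exact h1 _

section Extend

variable {L : Type} [Lattice L] [BoundedOrder L]

/-- the generators at `w` given the history `l`. -/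
def Gn (T : L → Set Node) (dn : L → L) (l : Set (L × L × ℕ)) (w : L) : Set Node :=
  T (dn w) ∪ {n | ∃ e ∈ l, (n = (e.2.2, false) ∧ e.1 ≤ w) ∨ (n = (e.2.2, true) ∧ e.2.1 ≤ w)}

theorem extend_good (hlt : WellFounded ((· < ·) : L → L → Prop))
    (hgt : WellFounded ((· > ·) : L → L → Prop)) (hne : (⊥ : L) ≠ ⊤) {S S' : Set L}
    {T : L → Set Node} (hG : Good S T) (hSS : S ⊆ S') (hS' : S'.Countable)
    (hsup : ∀ x ∈ S', ∀ y ∈ S', x ⊔ y ∈ S') (hinf : ∀ x ∈ S', ∀ y ∈ S', x ⊓ y ∈ S') :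
    ∃ T' : L → Set Node, Good S' T' ∧ ∀ x ∈ S, T' x = T x := by
  classical
  -- projections
  have hup : ∀ w : L, ∃ u ∈ S, w ≤ u ∧ ∀ v ∈ S, w ≤ v → u ≤ v := by
    intro w
    obtain ⟨u, hu, hmin⟩ := hlt.has_min {u | u ∈ S ∧ w ≤ u} ⟨⊤, hG.top_mem, le_top⟩
    refine ⟨u, hu.1, hu.2, fun v hv hwv => ?_⟩
    have h1 : u ⊓ v ∈ {u | u ∈ S ∧ w ≤ u} := ⟨hG.inf_mem _ hu.1 _ hv, le_inf hu.2 hwv⟩
    have h2 := hmin _ h1
    have h3 : u ⊓ v = u := by
      rcases (inf_le_left : u ⊓ v ≤ u).lt_or_eq with h | h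
      · exact absurd h h2
      · exact h
    exact inf_eq_left.1 h3
  have hdn : ∀ w : L, ∃ u ∈ S, u ≤ w ∧ ∀ v ∈ S, v ≤ w → v ≤ u := by
    intro w
    obtain ⟨u, hu, hmin⟩ := hgt.has_min {u | u ∈ S ∧ u ≤ w} ⟨⊥, hG.bot_mem, bot_le⟩
    refine ⟨u, hu.1, hu.2, fun v hv hwv => ?_⟩
    have h1 : u ⊔ v ∈ {u | u ∈ S ∧ u ≤ w} := ⟨hG.sup_mem _ hu.1 _ hv, sup_le hu.2 hwv⟩
    have h2 := hmin _ h1
    have h3 : u ⊔ v = u := by
      rcases (le_sup_left : u ≤ u ⊔ v).lt_or_eq with h | h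
      · exact absurd h h2
      · exact h.symm
    exact sup_eq_left.1 h3
  choose up hupS hup_le hup_min using hup
  choose dn hdnS hdn_le hdn_max using hdn
  have up_mono : ∀ {v w : L}, v ≤ w → up v ≤ up w := fun {v w} h =>
    hup_min v (up w) (hupS w) (h.trans (hup_le w))
  have dn_mono : ∀ {v w : L}, v ≤ w → dn v ≤ dn w := fun {v w} h =>
    hdn_max w (dn v) (hdnS v) ((hdn_le v).trans h)
  have up_sup : ∀ x y : L, up (x ⊔ y) ≤ up x ⊔ up y := fun x y =>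
    hup_min _ _ (hG.sup_mem _ (hupS x) _ (hupS y)) (sup_le_sup (hup_le x) (hup_le y))
  have up_ne : ∀ x : L, x ≠ ⊥ → up x ≠ ⊥ := fun x hx h => hx (le_bot_iff.1 (h ▸ hup_le x))
  -- enumerations
  obtain ⟨φ, hφ⟩ : ∃ φ : ℕ → L, S' = Set.range φ :=
    hS'.exists_eq_range ⟨⊥, hSS hG.bot_mem⟩
  obtain ⟨ψ, hψ⟩ : ∃ ψ : ℕ → L × L × Node, (S' ×ˢ S' ×ˢ (Set.univ : Set Node)) = Set.range ψ := by
    apply Set.Countable.exists_eq_range
    · exact hS'.prod (hS'.prod Set.countable_univ)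
    · exact ⟨(⊥, ⊥, (0, false)), hSS hG.bot_mem, hSS hG.bot_mem, trivial⟩
  let task : ℕ → L × L × Node := fun i => ψ (Nat.unpair i).1
  have htask : ∀ x ∈ S', ∀ y ∈ S', ∀ m : Node, ∀ b : ℕ, ∃ i, b ≤ i ∧ task i = (x, y, m) := by
    intro x hx y hy m b
    have h1 : (x, y, m) ∈ Set.range ψ := by rw [← hψ]; exact ⟨hx, hy, trivial⟩
    obtain ⟨a, ha⟩ := h1
    refine ⟨Nat.pair a b, Nat.right_le_pair _ _, ?_⟩
    show ψ (Nat.unpair (Nat.pair a b)).1 = _
    rw [Nat.unpair_pair]; exact ha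
  -- the set of entries of a list
  let st : List (L × L × ℕ) → Set (L × L × ℕ) := fun l => {e | e ∈ l}
  -- invariants
  let I : List (L × L × ℕ) → Prop := fun l =>
    ∀ e ∈ l, (e.2.2, false) ∈ T (up e.1) ∧ (e.2.2, true) ∈ T (up e.2.1)
  let P : List (L × L × ℕ) → L × L × ℕ → Prop := fun l e =>
    (e.1 ∈ S' ∧ e.2.1 ∈ S' ∧ e.1 ≠ ⊥ ∧ e.2.1 ≠ ⊥) ∧
    s e.2.2 ∈ cl (Gn T dn (st l) (e.1 ⊔ e.2.1)) ∧
    (∀ e' ∈ l, e'.2.2 < e.2.2) ∧ l.length < e.2.2 ∧
    ((e.2.2, false) ∈ T (up e.1) ∧ (e.2.2, true) ∈ T (up e.2.1)) ∧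
    (∀ k ≤ l.length, ((e.2.2, false) ∈ T (dn (φ k)) → e.1 ≤ φ k) ∧
      ((e.2.2, true) ∈ T (dn (φ k)) → e.2.1 ≤ φ k)) ∧
    ((task l.length).1 ≠ ⊥ → (task l.length).2.1 ≠ ⊥ →
      (task l.length).2.2 ∈ cl (Gn T dn (st l) ((task l.length).1 ⊔ (task l.length).2.1)) →
      e.1 = (task l.length).1 ∧ e.2.1 = (task l.length).2.1 ∧ s e.2.2 = (task l.length).2.2)
  have hGL : ∀ l, I l → ∀ w, cl (Gn T dn (st l) w) ⊆ T (up w) := by
    intro l hl w
    apply cl_min (hG.closed _ (hupS w))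
    rintro n (hn | ⟨e, he, ⟨rfl, hle⟩ | ⟨rfl, hle⟩⟩)
    · exact hG.mono _ (hdnS w) _ (hupS w) ((hdn_le w).trans (hup_le w)) hn
    · exact hG.mono _ (hupS _) _ (hupS _) (up_mono hle) (hl e he).1
    · exact hG.mono _ (hupS _) _ (hupS _) (up_mono hle) (hl e he).2
  have hstep : ∀ l, I l → ∃ e, P l e ∧ I (e :: l) := by
    intro l hl
    -- choosing `j` for a valid triple
    have key : ∀ x ∈ S', ∀ y ∈ S', x ≠ ⊥ → y ≠ ⊥ → ∀ m ∈ cl (Gn T dn (st l) (x ⊔ y)),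
        ∃ j, s j = m ∧ (∀ e' ∈ l, e'.2.2 < j) ∧ l.length < j ∧
          ((j, false) ∈ T (up x) ∧ (j, true) ∈ T (up y)) ∧
          (∀ k ≤ l.length, ((j, false) ∈ T (dn (φ k)) → x ≤ φ k) ∧
            ((j, true) ∈ T (dn (φ k)) → y ≤ φ k)) := by
      intro x hx y hy hx0 hy0 m hm
      have h1 : m ∈ T (up x ⊔ up y) :=
        hG.mono _ (hupS _) _ (hG.sup_mem _ (hupS _) _ (hupS _)) (up_sup x y) (hGL l hl _ hm)
      obtain ⟨B, hB⟩ : ∃ B, ∀ e' ∈ l, e'.2.2 ≤ B := by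
        refine ⟨l.toFinset.sup (fun e => e.2.2), fun e' he' => ?_⟩
        exact Finset.le_sup (f := fun e : L × L × ℕ => e.2.2) (List.mem_toFinset.2 he')
      obtain ⟨j, hj, hsj, hjx, hjy, hjV⟩ := hG.rich _ (hupS x) _ (hupS y) (up_ne x hx0)
        (up_ne y hy0) m h1 ((Finset.range (l.length + 1)).image (fun k => dn (φ k)))
        (by
          intro v hv
          rw [Finset.mem_image] at hv
          obtain ⟨k, _, rfl⟩ := hv
          exact hdnS _) (max B l.length)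
      refine ⟨j, hsj, ?_, ?_, ⟨hjx, hjy⟩, ?_⟩
      · intro e' he'
        exact lt_of_le_of_lt ((hB e' he').trans (le_max_left _ _)) hj
      · exact lt_of_le_of_lt (le_max_right _ _) hj
      · intro k hk
        have h2 := hjV (dn (φ k)) (Finset.mem_image.2 ⟨k, Finset.mem_range.2 (by omega), rfl⟩)
        exact ⟨fun h => (hup_le x).trans ((h2.1 h).trans (hdn_le _)),
          fun h => (hup_le y).trans ((h2.2 h).trans (hdn_le _))⟩
    -- choosing the triple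
    have h3 : ∃ x ∈ S', ∃ y ∈ S', ∃ m ∈ cl (Gn T dn (st l) (x ⊔ y)), x ≠ ⊥ ∧ y ≠ ⊥ ∧
        ((task l.length).1 ≠ ⊥ → (task l.length).2.1 ≠ ⊥ →
        (task l.length).2.2 ∈ cl (Gn T dn (st l) ((task l.length).1 ⊔ (task l.length).2.1)) →
        x = (task l.length).1 ∧ y = (task l.length).2.1 ∧ m = (task l.length).2.2) := by
      have h4 : task l.length ∈ (S' ×ˢ S' ×ˢ (Set.univ : Set Node)) := by
        rw [hψ]; exact ⟨_, rfl⟩
      by_cases hv : (task l.length).1 ≠ ⊥ ∧ (task l.length).2.1 ≠ ⊥ ∧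
          (task l.length).2.2 ∈ cl (Gn T dn (st l) ((task l.length).1 ⊔ (task l.length).2.1))
      · exact ⟨_, h4.1, _, h4.2.1, _, hv.2.2, hv.1, hv.2.1, fun _ _ _ => ⟨rfl, rfl, rfl⟩⟩
      · refine ⟨⊤, hSS hG.top_mem, ⊤, hSS hG.top_mem, (0, false), ?_, hne.symm, hne.symm, ?_⟩
        · apply subset_cl
          left
          have h5 : dn (⊤ ⊔ ⊤ : L) = ⊤ := by
            rw [sup_idem]
            exact top_le_iff.1 (hdn_max _ _ hG.top_mem le_rfl)
          rw [h5, hG.top]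
          trivial
        · intro h5 h6 h7
          exact absurd ⟨h5, h6, h7⟩ hv
    obtain ⟨x, hx, y, hy, m, hm, hx0, hy0, ht⟩ := h3
    obtain ⟨j, hj1, hj2, hj3, hj4, hj5⟩ := key x hx y hy hx0 hy0 m hm
    refine ⟨(x, y, j), ⟨⟨hx, hy, hx0, hy0⟩, ?_, hj2, hj3, hj4, hj5, ?_⟩, ?_⟩
    · show s j ∈ _
      rw [hj1]; exact hm
    · intro h5 h6 h7
      obtain ⟨h8, h9, h10⟩ := ht h5 h6 h7
      exact ⟨h8, h9, hj1.trans h10⟩
    · intro e he
      rcases List.mem_cons.1 he with rfl | he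
      · exact hj4
      · exact hl e he
  obtain ⟨f, hf⟩ := exists_seq P I (by intro e he; simp at he) hstep
  -- readable form
  set x : ℕ → L := fun i => (f i).1 with hxdef
  set y : ℕ → L := fun i => (f i).2.1 with hydef
  set j : ℕ → ℕ := fun i => (f i).2.2 with hjdef
  let G : ℕ → L → Set Node := fun i w => Gn T dn (st (pre f i)) w
  have mem_G : ∀ {i : ℕ} {w : L} {n : Node}, n ∈ G i w ↔ n ∈ T (dn w) ∨ ∃ k < i,
      (n = (j k, false) ∧ x k ≤ w) ∨ (n = (j k, true) ∧ y k ≤ w) := by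
    intro i w n
    constructor
    · rintro (h | ⟨e, he, h⟩)
      · exact Or.inl h
      · obtain ⟨k, hk, rfl⟩ := mem_pre.1 he
        exact Or.inr ⟨k, hk, h⟩
    · rintro (h | ⟨k, hk, h⟩)
      · exact Or.inl h
      · exact Or.inr ⟨f k, mem_pre.2 ⟨k, hk, rfl⟩, h⟩
  have pa : ∀ i, x i ∈ S' ∧ y i ∈ S' ∧ x i ≠ ⊥ ∧ y i ≠ ⊥ := fun i => (hf i).1
  have pb : ∀ i, s (j i) ∈ cl (G i (x i ⊔ y i)) := fun i => (hf i).2.1
  have pc : ∀ i k, k < i → j k < j i := fun i k hk =>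
    (hf i).2.2.1 (f k) (mem_pre.2 ⟨k, hk, rfl⟩)
  have pc' : ∀ i, i < j i := fun i => by
    have := (hf i).2.2.2.1
    rwa [length_pre] at this
  have pd : ∀ i, (j i, false) ∈ T (up (x i)) ∧ (j i, true) ∈ T (up (y i)) :=
    fun i => (hf i).2.2.2.2.1
  have pe : ∀ i k, k ≤ i → ((j i, false) ∈ T (dn (φ k)) → x i ≤ φ k) ∧
      ((j i, true) ∈ T (dn (φ k)) → y i ≤ φ k) := fun i k hk =>
    (hf i).2.2.2.2.2.1 k (by rw [length_pre]; exact hk)
  have pf : ∀ i, (task i).1 ≠ ⊥ → (task i).2.1 ≠ ⊥ →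
      (task i).2.2 ∈ cl (G i ((task i).1 ⊔ (task i).2.1)) →
      x i = (task i).1 ∧ y i = (task i).2.1 ∧ s (j i) = (task i).2.2 := by
    intro i
    have := (hf i).2.2.2.2.2.2
    rw [length_pre] at this
    exact this
  have jinj : ∀ i k, j i = j k → i = k := by
    intro i k h
    rcases lt_trichotomy i k with h1 | h1 | h1
    · have := pc k i h1; omega
    · exact h1
    · have := pc i k h1; omega
  clear_value x y j
  have Gmono : ∀ {i k : ℕ} {w w' : L}, i ≤ k → w ≤ w' → G i w ⊆ G k w' := by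
    intro i k w w' hik hw n hn
    rw [mem_G] at hn ⊢
    rcases hn with hn | ⟨l, hl, ⟨h1, h2⟩ | ⟨h1, h2⟩⟩
    · exact Or.inl (hG.mono _ (hdnS w) _ (hdnS w') (dn_mono hw) hn)
    · exact Or.inr ⟨l, by omega, Or.inl ⟨h1, h2.trans hw⟩⟩
    · exact Or.inr ⟨l, by omega, Or.inr ⟨h1, h2.trans hw⟩⟩
  -- large indices
  have hbig : ∀ {i : ℕ} {w : L} {n : Node}, n ∈ cl (G i w) → n ∈ T (dn w) ∨
      ∃ k < i, n.1 ≤ j k := by
    intro i w n hn
    by_contra hcon
    push Not at hcon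
    obtain ⟨h1, h2⟩ := hcon
    have h3 : G i w ⊆ T (dn w) ∪ {n' | n'.1 < n.1} := by
      intro n' hn'
      rw [mem_G] at hn'
      rcases hn' with hn' | ⟨l, hl, ⟨rfl, _⟩ | ⟨rfl, _⟩⟩
      · exact Or.inl hn'
      · exact Or.inr (h2 l hl)
      · exact Or.inr (h2 l hl)
    have h4 := cl_bound_lt (T := T (dn w)) (F := {n' | n'.1 < n.1}) (b := n.1)
      (hG.closed _ (hdnS w)) (fun n' h => h) (cl_mono h3 hn)
    rcases h4 with h4 | h4
    · exact h1 h4
    · exact lt_irrefl n.1 h4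
  have hbigj : ∀ {i l : ℕ} {w : L} {c : Bool}, i ≤ l → (j l, c) ∈ cl (G i w) →
      (j l, c) ∈ T (dn w) := by
    intro i l w c hil h
    rcases hbig h with h1 | ⟨k, hk, h1⟩
    · exact h1
    · have := pc l k (by omega)
      have h1' : j l ≤ j k := h1
      omega
  -- one step
  have hone : ∀ {k0 k : ℕ}, k0 ≤ k → ∀ {n : Node}, n ∈ cl (G (k + 1) (φ k0)) →
      n ∈ cl (G k (φ k0)) ∨ (n = (j k, false) ∧ x k ≤ φ k0) ∨ (n = (j k, true) ∧ y k ≤ φ k0) := by
    intro k0 k hk n hn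
    let R : Set Node := {n | n ∈ cl (G k (φ k0)) ∨ (n = (j k, false) ∧ x k ≤ φ k0) ∨
      (n = (j k, true) ∧ y k ≤ φ k0)}
    have hR : Closed R := by
      intro i hi h0 h1
      by_cases hik : i = j k
      · subst hik
        have hx' : x k ≤ φ k0 := by
          rcases h0 with h0 | ⟨_, h0⟩ | ⟨h0, _⟩
          · exact (pe k k0 hk).1 (hbigj le_rfl h0)
          · exact h0
          · exact absurd (congrArg Prod.snd h0) (by simp)
        have hy' : y k ≤ φ k0 := by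
          rcases h1 with h1 | ⟨h1, _⟩ | ⟨_, h1⟩
          · exact (pe k k0 hk).2 (hbigj le_rfl h1)
          · exact absurd (congrArg Prod.snd h1) (by simp)
          · exact h1
        exact Or.inl (cl_mono (Gmono le_rfl (sup_le hx' hy')) (pb k))
      · left
        rcases h0 with h0 | ⟨h0, _⟩ | ⟨h0, _⟩
        · rcases h1 with h1 | ⟨h1, _⟩ | ⟨h1, _⟩
          · exact closed_cl _ i hi h0 h1
          · exact absurd (congrArg Prod.fst h1) hik
          · exact absurd (congrArg Prod.fst h1) hik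
        · exact absurd (congrArg Prod.fst h0) hik
        · exact absurd (congrArg Prod.fst h0) hik
    have hGR : G (k + 1) (φ k0) ⊆ R := by
      intro n hn
      rw [mem_G] at hn
      rcases hn with hn | ⟨l, hl, h⟩
      · exact Or.inl (subset_cl _ (mem_G.2 (Or.inl hn)))
      · rcases Nat.lt_succ_iff_lt_or_eq.1 hl with h1 | h1
        · exact Or.inl (subset_cl _ (mem_G.2 (Or.inr ⟨l, h1, h⟩)))
        · subst h1; exact Or.inr h
    exact cl_min hR hGR hn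
  have hmany : ∀ {k0 i k : ℕ}, k0 ≤ i → i ≤ k → ∀ {n : Node}, n ∈ cl (G k (φ k0)) →
      n ∈ cl (G i (φ k0)) ∨ ∃ l ≥ i, (n = (j l, false) ∧ x l ≤ φ k0) ∨
        (n = (j l, true) ∧ y l ≤ φ k0) := by
    intro k0 i k hk0 hik
    induction k, hik using Nat.le_induction with
    | base => intro n hn; exact Or.inl hn
    | succ k hik ih =>
      intro n hn
      rcases hone (hk0.trans hik) hn with h | h
      · exact ih h
      · exact Or.inr ⟨k, hik, h⟩
  -- the new assignment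
  let T' : L → Set Node := fun w => ⋃ i, cl (G i w)
  have hT' : ∀ {w : L} {n : Node}, n ∈ T' w ↔ ∃ i, n ∈ cl (G i w) := by
    intro w n; exact Set.mem_iUnion
  have claimC : ∀ {k0 l : ℕ}, k0 ≤ l → ((j l, false) ∈ T' (φ k0) → x l ≤ φ k0) ∧
      ((j l, true) ∈ T' (φ k0) → y l ≤ φ k0) := by
    intro k0 l hl
    constructor
    · intro h
      obtain ⟨k, hk⟩ := hT'.1 h
      have h1 := cl_mono (Gmono (le_max_left k l) le_rfl) hk
      rcases hmany hl (le_max_right k l) h1 with h2 | ⟨l', hl', ⟨h2, h3⟩ | ⟨h2, _⟩⟩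
      · exact (pe l k0 hl).1 (hbigj le_rfl h2)
      · rw [jinj l l' (congrArg Prod.fst h2)]; exact h3
      · exact absurd (congrArg Prod.snd h2) (by simp)
    · intro h
      obtain ⟨k, hk⟩ := hT'.1 h
      have h1 := cl_mono (Gmono (le_max_left k l) le_rfl) hk
      rcases hmany hl (le_max_right k l) h1 with h2 | ⟨l', hl', ⟨h2, _⟩ | ⟨h2, h3⟩⟩
      · exact (pe l k0 hl).2 (hbigj le_rfl h2)
      · exact absurd (congrArg Prod.snd h2) (by simp)
      · rw [jinj l l' (congrArg Prod.fst h2)]; exact h3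
  have claimS : ∀ {k0 i : ℕ}, k0 ≤ i → ∀ {n : Node}, n ∈ T' (φ k0) →
      n ∈ T (dn (φ k0)) ∨ n.1 ≤ j i ∨ ∃ l ≥ i, n = (j l, false) ∨ n = (j l, true) := by
    intro k0 i hi n hn
    obtain ⟨k, hk⟩ := hT'.1 hn
    have h1 := cl_mono (Gmono (le_max_left k i) le_rfl) hk
    rcases hmany hi (le_max_right k i) h1 with h2 | ⟨l, hl, h2⟩
    · rcases hbig h2 with h3 | ⟨k', hk', h3⟩
      · exact Or.inl h3
      · right; left
        exact h3.trans (pc i k' hk').le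
    · right; right
      rcases h2 with h2 | h2
      · exact ⟨l, hl, Or.inl h2.1⟩
      · exact ⟨l, hl, Or.inr h2.1⟩
  have hold : ∀ w ∈ S, T' w = T w := by
    intro w hw
    have hdw : dn w = w := le_antisymm (hdn_le w) (hdn_max w w hw le_rfl)
    apply Set.Subset.antisymm
    · intro n hn
      obtain ⟨i, hi⟩ := hT'.1 hn
      refine cl_min (hG.closed w hw) ?_ hi
      intro n hn
      rw [mem_G] at hn
      rcases hn with hn | ⟨l, hl, ⟨rfl, h2⟩ | ⟨rfl, h2⟩⟩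
      · rwa [hdw] at hn
      · exact hG.mono _ (hupS _) _ hw (hup_min _ _ hw h2) (pd l).1
      · exact hG.mono _ (hupS _) _ hw (hup_min _ _ hw h2) (pd l).2
    · intro n hn
      refine hT'.2 ⟨0, subset_cl _ (mem_G.2 (Or.inl ?_))⟩
      rwa [hdw]
  refine ⟨T', ?_, hold⟩
  have hidx : ∀ w ∈ S', ∃ k, φ k = w := by
    intro w hw
    rw [hφ] at hw
    exact hw
  exact {
    bot_mem := hSS hG.bot_mem
    top_mem := hSS hG.top_mem
    sup_mem := hsup
    inf_mem := hinf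
    bot := by rw [hold _ hG.bot_mem, hG.bot]
    top := by rw [hold _ hG.top_mem, hG.top]
    closed := by
      intro w _ i hi h0 h1
      obtain ⟨a, ha⟩ := hT'.1 h0
      obtain ⟨b, hb⟩ := hT'.1 h1
      refine hT'.2 ⟨max a b, closed_cl _ i hi ?_ ?_⟩
      · exact cl_mono (Gmono (le_max_left a b) le_rfl) ha
      · exact cl_mono (Gmono (le_max_right a b) le_rfl) hb
    mono := by
      intro v _ w _ hvw n hn
      obtain ⟨a, ha⟩ := hT'.1 hn
      exact hT'.2 ⟨a, cl_mono (Gmono le_rfl hvw) ha⟩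
    fin := by
      intro v hv w hw
      obtain ⟨k1, rfl⟩ := hidx v hv
      obtain ⟨k2, rfl⟩ := hidx w hw
      refine ((hG.fin _ (hdnS (φ k1)) _ (hdnS (φ k2))).union
        (finite_le (j (max k1 k2)))).subset ?_
      rintro n ⟨⟨hn1, hn2⟩, hn3⟩
      rcases claimS (le_max_left k1 k2) hn1 with h1 | h1 | ⟨l, hl, h1⟩
      · rcases claimS (le_max_right k1 k2) hn2 with h2 | h2 | ⟨l, hl, h2⟩
        · left
          refine ⟨⟨h1, h2⟩, fun h3 => hn3 ?_⟩
          refine hT'.2 ⟨0, subset_cl _ (mem_G.2 (Or.inl ?_))⟩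
          refine hG.mono _ (hG.inf_mem _ (hdnS _) _ (hdnS _)) _ (hdnS _) ?_ h3
          exact hdn_max _ _ (hG.inf_mem _ (hdnS _) _ (hdnS _))
            (inf_le_inf (hdn_le _) (hdn_le _))
        · exact Or.inr h2
        · exfalso
          have e1 : k1 ≤ l := (le_max_left k1 k2).trans hl
          have e2 : k2 ≤ l := (le_max_right k1 k2).trans hl
          apply hn3
          rcases h2 with rfl | rfl
          · refine hT'.2 ⟨l + 1, subset_cl _ (mem_G.2 (Or.inr ⟨l, Nat.lt_succ_self l,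
              Or.inl ⟨rfl, le_inf ((claimC e1).1 hn1) ((claimC e2).1 hn2)⟩⟩))⟩
          · refine hT'.2 ⟨l + 1, subset_cl _ (mem_G.2 (Or.inr ⟨l, Nat.lt_succ_self l,
              Or.inr ⟨rfl, le_inf ((claimC e1).2 hn1) ((claimC e2).2 hn2)⟩⟩))⟩
      · exact Or.inr h1
      · exfalso
        have e1 : k1 ≤ l := (le_max_left k1 k2).trans hl
        have e2 : k2 ≤ l := (le_max_right k1 k2).trans hl
        apply hn3
        rcases h1 with rfl | rfl
        · refine hT'.2 ⟨l + 1, subset_cl _ (mem_G.2 (Or.inr ⟨l, Nat.lt_succ_self l,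
            Or.inl ⟨rfl, le_inf ((claimC e1).1 hn1) ((claimC e2).1 hn2)⟩⟩))⟩
        · refine hT'.2 ⟨l + 1, subset_cl _ (mem_G.2 (Or.inr ⟨l, Nat.lt_succ_self l,
            Or.inr ⟨rfl, le_inf ((claimC e1).2 hn1) ((claimC e2).2 hn2)⟩⟩))⟩
    rich := by
      intro v hv w hw hv0 hw0 m hm V hV b
      obtain ⟨i0, hi0⟩ := hT'.1 hm
      obtain ⟨N, hN⟩ : ∃ N, ∀ u ∈ V, ∃ k ≤ N, φ k = u := by
        have h1 : ∀ u : L, ∃ k, u ∈ V → φ k = u := by
          intro u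
          by_cases hu : u ∈ V
          · obtain ⟨k, hk⟩ := hidx u (hV u hu)
            exact ⟨k, fun _ => hk⟩
          · exact ⟨0, fun h => absurd h hu⟩
        choose κ hκ using h1
        exact ⟨V.sup κ, fun u hu => ⟨κ u, Finset.le_sup hu, hκ u hu⟩⟩
      obtain ⟨i, hi, hti⟩ := htask v hv w hw m (max (max i0 N) b)
      have hi0' : i0 ≤ i := (le_max_left _ _).trans ((le_max_left _ _).trans hi)
      have hN' : N ≤ i := (le_max_right _ _).trans ((le_max_left _ _).trans hi)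
      have hb' : b ≤ i := (le_max_right _ _).trans hi
      have h1 := pf i
      rw [hti] at h1
      obtain ⟨h2, h3, h4⟩ := h1 hv0 hw0 (cl_mono (Gmono hi0' le_rfl) hi0)
      simp only at h2 h3 h4
      refine ⟨j i, lt_of_le_of_lt hb' (pc' i), h4, ?_, ?_, ?_⟩
      · exact hT'.2 ⟨i + 1, subset_cl _ (mem_G.2 (Or.inr ⟨i, Nat.lt_succ_self i,
          Or.inl ⟨rfl, h2.le⟩⟩))⟩
      · exact hT'.2 ⟨i + 1, subset_cl _ (mem_G.2 (Or.inr ⟨i, Nat.lt_succ_self i,
          Or.inr ⟨rfl, h3.le⟩⟩))⟩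
      · intro u hu
        obtain ⟨k, hk, rfl⟩ := hN u hu
        have h5 := claimC (hk.trans hN')
        rw [← h2, ← h3]
        exact h5 }

end Extend

end Pool.Agent.helper51.Clo
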