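import Mathlib
import Pool.Agent.helper51.Clo.Node

/-!
# Local clones from closed sets of nodes
-/

set_option autoImplicit false

namespace Pool.Agent.helper51.Clo

/-! ### Local clones on an arbitrary set -/

/-- family of sets of finitary operations on `X`, arity `n + 1`. -/
abbrev OpFam (X : Type) : Type := ∀ n : ℕ, Set ((Fin (n + 1) → X) → X)

structure IsLocalClone {X : Type} (C : OpFam X) : Prop where
  proj : ∀ (n : ℕ) (i : Fin (n + 1)), (fun x : Fin (n + 1) → X => x i) ∈ C n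
  comp : ∀ (n m : ℕ) (g : (Fin (n + 1) → X) → X) (hs : Fin (n + 1) → (Fin (m + 1) → X) → X),
    g ∈ C n → (∀ i, hs i ∈ C m) → (fun x : Fin (m + 1) → X => g (fun i => hs i x)) ∈ C m
  closed : ∀ (n : ℕ) (g : (Fin (n + 1) → X) → X),
    (∀ F : Finset (Fin (n + 1) → X), ∃ h ∈ C n, ∀ x ∈ F, h x = g x) → g ∈ C n

/-! ### States and points -/

/-- a state: a finite set of live nodes and a finite set of frozen nodes. -/
abbrev State : Type := Finset Node × Finset Node

/-- `Rel t h`: the state `h` may come right after (above) the state `t`. -/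
def Rel (t h : State) : Prop :=
  t.2 ⊆ h.2 ∧ ∀ n ∈ t.1, n ∈ cl ({k | k ∈ h.1 ∧ n.1 < k.1} ∪ (h.2 : Set Node))

/-- the head of a list of states. -/
def hdl : List State → State
  | [] => (∅, ∅)
  | h :: _ => h

def Val : List State → Prop
  | [] => True
  | h :: t => Rel (hdl t) h ∧ Val t

/-- the points of the base set. -/
def X : Type := {l : List State // Val l}

theorem Val.tail {l : List State} (h : Val l) : Val l.tail := by
  cases l with
  | nil => exact h
  | cons a t => exact h.2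

def tl (p : X) : X := ⟨p.1.tail, p.2.tail⟩

def hd (p : X) : State := hdl p.1

theorem rel_empty (h : State) : Rel (∅, ∅) h := ⟨by simp, by simp⟩

theorem rel_tl (p : X) : Rel (hd (tl p)) (hd p) := by
  obtain ⟨l, hl⟩ := p
  cases l with
  | nil => exact rel_empty _
  | cons a t => exact hl.1

instance : Countable X := by
  unfold X; infer_instance

theorem val_replicate (n : ℕ) : Val (List.replicate n ((∅, ∅) : State)) := by
  induction n with
  | zero => trivial
  | succ n ih =>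
    refine ⟨?_, ih⟩
    cases n with
    | zero => exact rel_empty _
    | succ n => exact rel_empty _

instance : Infinite X := by
  refine Infinite.of_injective (fun n : ℕ => (⟨List.replicate n (∅, ∅), val_replicate n⟩ : X)) ?_
  intro a b hab
  have := congrArg (fun p : X => p.1.length) hab
  simpa using this

/-- the union of the head states of the coordinates. -/
def U {k : ℕ} (w : Fin (k + 1) → X) : State :=
  (Finset.univ.biUnion fun i => (hd (w i)).1, Finset.univ.biUnion fun i => (hd (w i)).2)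

/-- the set of all nodes in the head states of the coordinates. -/
def Sup {k : ℕ} (w : Fin (k + 1) → X) : Set Node := (U w).1 ∪ (U w).2

theorem mem_U1 {k : ℕ} {w : Fin (k + 1) → X} {n : Node} : n ∈ (U w).1 ↔ ∃ i, n ∈ (hd (w i)).1 := by
  simp [U]

theorem mem_U2 {k : ℕ} {w : Fin (k + 1) → X} {n : Node} : n ∈ (U w).2 ↔ ∃ i, n ∈ (hd (w i)).2 := by
  simp [U]

theorem mem_Sup {k : ℕ} {w : Fin (k + 1) → X} {n : Node} :
    n ∈ Sup w ↔ (∃ i, n ∈ (hd (w i)).1) ∨ ∃ i, n ∈ (hd (w i)).2 := by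
  show (n ∈ ((U w).1 : Set Node) ∨ n ∈ ((U w).2 : Set Node)) ↔ _
  rw [Finset.mem_coe, Finset.mem_coe, mem_U1, mem_U2]

theorem finite_Sup {k : ℕ} (w : Fin (k + 1) → X) : (Sup w).Finite :=
  (Finset.finite_toSet _).union (Finset.finite_toSet _)

/-- componentwise tail. -/
def tls {k : ℕ} (w : Fin (k + 1) → X) : Fin (k + 1) → X := fun i => tl (w i)

theorem U2_tls {k : ℕ} (w : Fin (k + 1) → X) : (U (tls w)).2 ⊆ (U w).2 := by
  intro n hn
  rw [mem_U2] at hn ⊢
  obtain ⟨i, hi⟩ := hn
  exact ⟨i, (rel_tl (w i)).1 hi⟩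

theorem later_tls {k : ℕ} (w : Fin (k + 1) → X) {n : Node} (hn : n ∈ cl (Sup (tls w))) :
    n ∈ cl ({m | m ∈ ((U w).1 : Set Node) ∧ n.1 < m.1} ∪ ((U w).2 : Set Node)) := by
  refine cl_later (A := Sup (tls w)) (B := ((U w).1 : Set Node)) (Z := ((U w).2 : Set Node)) ?_ hn
  intro a ha
  rw [mem_Sup] at ha
  rcases ha with ⟨i, hi⟩ | ⟨i, hi⟩
  · refine cl_mono ?_ ((rel_tl (w i)).2 a hi)
    apply Set.union_subset_union
    · rintro m ⟨hm, hm'⟩
      exact ⟨Finset.mem_coe.2 (mem_U1.2 ⟨i, hm⟩), hm'⟩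
    · intro m hm
      exact Finset.mem_coe.2 (mem_U2.2 ⟨i, hm⟩)
  · apply subset_cl
    right
    exact Finset.mem_coe.2 (mem_U2.2 ⟨i, (rel_tl (w i)).1 hi⟩)

/-! ### The clone of a set of nodes -/

/-- the operations commuting with `tl` whose values have a head derivable from `T` and the heads
of the arguments (frozen nodes must be frozen in an argument). -/
def C (T : Set Node) : OpFam X := fun _ => {g |
  (∀ p, tl (g p) = g (tls p)) ∧
  (∀ p, ∀ n ∈ (hd (g p)).1, n ∈ cl (T ∪ Sup p)) ∧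
  (∀ p, (hd (g p)).2 ⊆ (U p).2)}

theorem isLocalClone_C (T : Set Node) : IsLocalClone (C T) := by
  classical
  refine ⟨?_, ?_, ?_⟩
  · intro n i
    refine ⟨fun p => rfl, ?_, ?_⟩
    · intro p m hm
      exact subset_cl _ (Or.inr (mem_Sup.2 (Or.inl ⟨i, hm⟩)))
    · intro p m hm
      exact mem_U2.2 ⟨i, hm⟩
  · intro n m g hs hg hhs
    refine ⟨?_, ?_, ?_⟩
    · intro p
      rw [hg.1]
      congr 1
      funext i
      exact (hhs i).1 p
    · intro p k hk
      have h1 := hg.2.1 _ k hk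
      refine cl_le_cl ?_ h1
      apply Set.union_subset
      · exact Set.subset_union_left.trans (subset_cl _)
      · intro a ha
        rw [mem_Sup] at ha
        rcases ha with ⟨i, hi⟩ | ⟨i, hi⟩
        · exact (hhs i).2.1 p a hi
        · have h2 := (hhs i).2.2 p hi
          exact subset_cl _ (Or.inr (Or.inr (Finset.mem_coe.2 h2)))
    · intro p k hk
      have h1 := hg.2.2 _ hk
      rw [mem_U2] at h1
      obtain ⟨i, hi⟩ := h1
      exact (hhs i).2.2 p hi
  · intro n g h
    have key : ∀ p, ∃ h ∈ C T n, h p = g p ∧ h (tls p) = g (tls p) := by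
      intro p
      obtain ⟨k, hk, hk'⟩ := h {p, tls p}
      exact ⟨k, hk, hk' p (by simp), hk' (tls p) (by simp)⟩
    refine ⟨?_, ?_, ?_⟩
    · intro p
      obtain ⟨k, hk, h1, h2⟩ := key p
      rw [← h1, ← h2]
      exact hk.1 p
    · intro p
      obtain ⟨k, hk, h1, _⟩ := key p
      rw [← h1]
      exact hk.2.1 p
    · intro p
      obtain ⟨k, hk, h1, _⟩ := key p
      rw [← h1]
      exact hk.2.2 p

theorem C_mono {T T' : Set Node} (h : T ⊆ T') : C T ≤ C T' := by
  intro n g hg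
  exact ⟨hg.1, fun p m hm => cl_mono (Set.union_subset_union_left _ h) (hg.2.1 p m hm), hg.2.2⟩

/-! ### Meets -/

/-- freeze everything. -/
def ex (p : X) : X :=
  ⟨(∅, (hd p).1 ∪ (hd p).2) :: p.1, by
    refine ⟨⟨Finset.subset_union_right, ?_⟩, p.2⟩
    intro n hn
    apply subset_cl
    right
    simp only [Finset.coe_union, Set.mem_union, Finset.mem_coe]
    exact Or.inl hn⟩

theorem tl_ex (p : X) : tl (ex p) = p := rfl

theorem hd_ex (p : X) : hd (ex p) = (∅, (hd p).1 ∪ (hd p).2) := rfl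

/-- freeze all coordinates `r` times. -/
def exs {k : ℕ} (w : Fin (k + 1) → X) : ℕ → Fin (k + 1) → X
  | 0 => w
  | r + 1 => fun i => ex (exs w r i)

theorem tls_exs {k : ℕ} (w : Fin (k + 1) → X) (r : ℕ) : tls (exs w (r + 1)) = exs w r := rfl

theorem Sup_exs {k : ℕ} (w : Fin (k + 1) → X) (r : ℕ) : Sup (exs w r) = Sup w := by
  induction r with
  | zero => rfl
  | succ r ih =>
    rw [← ih]
    ext n
    rw [mem_Sup, mem_Sup]
    constructor
    · rintro (⟨i, hi⟩ | ⟨i, hi⟩)
      · exact absurd hi (by show ¬ n ∈ (hd (ex (exs w r i))).1; rw [hd_ex]; simp)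
      · have h1 : n ∈ (hd (ex (exs w r i))).2 := hi
        rw [hd_ex, Finset.mem_union] at h1
        rcases h1 with h1 | h1
        · exact Or.inl ⟨i, h1⟩
        · exact Or.inr ⟨i, h1⟩
    · rintro (⟨i, hi⟩ | ⟨i, hi⟩)
      · right; refine ⟨i, ?_⟩
        show n ∈ (hd (ex (exs w r i))).2
        rw [hd_ex, Finset.mem_union]; exact Or.inl hi
      · right; refine ⟨i, ?_⟩
        show n ∈ (hd (ex (exs w r i))).2
        rw [hd_ex, Finset.mem_union]; exact Or.inr hi

theorem C_inf {T1 T2 T : Set Node} (h1 : Closed T1) (h2 : Closed T2)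
    (hfin : ((T1 ∩ T2) \ T).Finite) : C T1 ⊓ C T2 ≤ C T := by
  classical
  intro n g hg
  obtain ⟨hg1, hg2⟩ : g ∈ C T1 n ∧ g ∈ C T2 n := hg
  refine ⟨hg1.1, ?_, hg1.2.2⟩
  intro p
  -- the bad nodes
  set D : Set Node := cl (T ∪ Sup p) with hD
  by_contra hcon
  push Not at hcon
  obtain ⟨m0, hm0, hm0'⟩ := hcon
  let Bad : Set Node := {m | ∃ r, m ∈ (hd (g (exs p r))).1 ∧ m ∉ D}
  have hne : Bad.Nonempty := ⟨m0, 0, hm0, hm0'⟩
  -- a bound for the indices occurring in `Sup p`
  obtain ⟨b, hb⟩ : ∃ b, ∀ m ∈ Sup p, m.1 ≤ b := by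
    have h3 := ((finite_Sup p).image Prod.fst).bddAbove
    obtain ⟨b, hb⟩ := h3
    exact ⟨b, fun m hm => hb ⟨m, hm, rfl⟩⟩
  have hfinBad : Bad.Finite := by
    refine (hfin.union (finite_le b)).subset ?_
    rintro m ⟨r, hm, hmD⟩
    have h3 := hg1.2.1 _ m hm
    have h4 := hg2.2.1 _ m hm
    rw [Sup_exs] at h3 h4
    rcases cl_bound h1 hb h3 with h3 | h3
    · rcases cl_bound h2 hb h4 with h4 | h4
      · left
        refine ⟨⟨h3, h4⟩, fun h5 => hmD ?_⟩
        exact subset_cl _ (Or.inl h5)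
      · exact Or.inr h4
    · exact Or.inr h3
  obtain ⟨m, ⟨r, hm, hmD⟩, hmax⟩ := Set.exists_max_image Bad (fun m => m.1) hfinBad hne
  -- the next level
  have htl : tl (g (exs p (r + 1))) = g (exs p r) := by
    rw [hg1.1, tls_exs]
  have hrel := rel_tl (g (exs p (r + 1)))
  rw [htl] at hrel
  have h3 := hrel.2 m hm
  apply hmD
  rw [hD]
  refine cl_le_cl ?_ h3
  apply Set.union_subset
  · rintro k ⟨hk, hk'⟩
    by_contra hkD
    exact absurd (hmax k ⟨r + 1, hk, hkD⟩) (by simpa using hk')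
  · intro k hk
    have h4 := hg1.2.2 _ hk
    have h5 : k ∈ Sup (exs p (r + 1)) := by
      rw [mem_Sup]; exact Or.inr (mem_U2.1 h4)
    rw [Sup_exs] at h5
    exact subset_cl _ (Or.inr h5)

end Pool.Agent.helper51.Clo
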