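import Mathlib
import Pool.Agent.helper51.Clo.Clone

/-!
# Joins of the clones `C T`
-/

set_option autoImplicit false

namespace Pool.Agent.helper51.Clo

/-! ### Length -/

def len {k : ℕ} (w : Fin (k + 1) → X) : ℕ := Finset.univ.sup fun i => (w i).1.length

theorem length_tl (p : X) : (tl p).1.length = p.1.length - 1 := by
  show p.1.tail.length = _
  simp

theorem len_tls {k : ℕ} (w : Fin (k + 1) → X) : len (tls w) = len w - 1 := by
  apply le_antisymm
  · apply Finset.sup_le
    intro i hi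
    show (tl (w i)).1.length ≤ _
    rw [length_tl]
    exact Nat.sub_le_sub_right (Finset.le_sup (f := fun i => (w i).1.length) hi) 1
  · rw [Nat.sub_le_iff_le_add]
    apply Finset.sup_le
    intro i hi
    have h1 : (tl (w i)).1.length ≤ len (tls w) :=
      Finset.le_sup (f := fun i => ((tls w) i).1.length) hi
    rw [length_tl] at h1
    omega

theorem eq_nil_of_length {p : X} (h : p.1.length = 0) : p = ⟨[], trivial⟩ :=
  Subtype.ext (List.length_eq_zero_iff.1 h)

theorem tls_of_len {k : ℕ} {w : Fin (k + 1) → X} (h : len w = 0) : tls w = w := by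
  funext i
  have h1 : (w i).1.length ≤ len w :=
    Finset.le_sup (f := fun i => (w i).1.length) (Finset.mem_univ i)
  have h2 : w i = ⟨[], trivial⟩ := eq_nil_of_length (by omega)
  show tl (w i) = w i
  rw [h2]; rfl

theorem eq_nil_of_tl {p : X} (h : tl p = p) : p = ⟨[], trivial⟩ := by
  apply eq_nil_of_length
  have h1 := length_tl p
  rw [h] at h1
  omega

/-! ### Extending a partial operation -/

open Classical in
/-- raw version of the extension. -/
noncomputable def aux {k : ℕ} (Q : Set (Fin (k + 1) → X)) (h : (Fin (k + 1) → X) → X) :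
    ℕ → (Fin (k + 1) → X) → List State
  | 0, w => if w ∈ Q then (h w).1 else []
  | r + 1, w => if w ∈ Q then (h w).1 else U w :: aux Q h r (tls w)

theorem aux_mem {k : ℕ} {Q : Set (Fin (k + 1) → X)} {h : (Fin (k + 1) → X) → X} {r : ℕ}
    {w : Fin (k + 1) → X} (hw : w ∈ Q) : aux Q h r w = (h w).1 := by
  cases r <;> simp [aux, hw]

theorem aux_spec {k : ℕ} {Q : Set (Fin (k + 1) → X)} {h : (Fin (k + 1) → X) → X}
    (h2 : ∀ w ∈ Q, ∀ n ∈ (hd (h w)).1, n ∈ cl (Sup w))
    (h3 : ∀ w ∈ Q, (hd (h w)).2 ⊆ (U w).2) (r : ℕ) :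
    ∀ w : Fin (k + 1) → X, Val (aux Q h r w) ∧ (∀ n ∈ (hdl (aux Q h r w)).1, n ∈ cl (Sup w)) ∧
      (hdl (aux Q h r w)).2 ⊆ (U w).2 := by
  classical
  induction r with
  | zero =>
    intro w
    by_cases hw : w ∈ Q
    · rw [aux_mem hw]
      exact ⟨(h w).2, h2 w hw, h3 w hw⟩
    · have h4 : aux Q h 0 w = [] := by simp [aux, hw]
      rw [h4]
      exact ⟨trivial, by simp [hdl], by simp [hdl]⟩
  | succ r ih =>
    intro w
    by_cases hw : w ∈ Q
    · rw [aux_mem hw]
      exact ⟨(h w).2, h2 w hw, h3 w hw⟩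
    · have h4 : aux Q h (r + 1) w = U w :: aux Q h r (tls w) := by simp [aux, hw]
      rw [h4]
      obtain ⟨i1, i2, i3⟩ := ih (tls w)
      refine ⟨⟨⟨i3.trans (U2_tls w), ?_⟩, i1⟩, ?_, ?_⟩
      · intro n hn
        exact later_tls w (i2 n hn)
      · intro n hn
        exact subset_cl _ (Or.inl (Finset.mem_coe.2 hn))
      · exact subset_rfl

theorem extend {k : ℕ} (Q : Set (Fin (k + 1) → X)) (h : (Fin (k + 1) → X) → X)
    (hQ : ∀ w ∈ Q, tls w ∈ Q) (h1 : ∀ w ∈ Q, tl (h w) = h (tls w))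
    (h2 : ∀ w ∈ Q, ∀ n ∈ (hd (h w)).1, n ∈ cl (Sup w))
    (h3 : ∀ w ∈ Q, (hd (h w)).2 ⊆ (U w).2) :
    ∃ g ∈ C ∅ k, ∀ w ∈ Q, g w = h w := by
  classical
  refine ⟨fun w => ⟨aux Q h (len w) w, (aux_spec h2 h3 (len w) w).1⟩, ⟨?_, ?_, ?_⟩, ?_⟩
  · intro w
    apply Subtype.ext
    show (aux Q h (len w) w).tail = aux Q h (len (tls w)) (tls w)
    by_cases hw : w ∈ Q
    · rw [aux_mem hw, aux_mem (hQ w hw), ← h1 w hw]
      rfl
    · rcases Nat.eq_zero_or_pos (len w) with h4 | h4
      · rw [tls_of_len h4, h4]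
        simp [aux, hw]
      · obtain ⟨r, hr⟩ : ∃ r, len w = r + 1 := ⟨len w - 1, by omega⟩
        rw [len_tls, hr]
        simp [aux, hw]
  · intro w n hn
    have h4 := (aux_spec h2 h3 (len w) w).2.1 n hn
    exact cl_mono Set.subset_union_right h4
  · intro w
    exact (aux_spec h2 h3 (len w) w).2.2
  · intro w hw
    exact Subtype.ext (aux_mem hw)

/-! ### A constant stack inside a rich set -/

theorem exists_stack {T : Set Node} (hT : ∀ n ∈ T, n ∈ cl {k | k ∈ T ∧ n.1 < k.1})
    (d0 : Finset Node) (hd0 : (d0 : Set Node) ⊆ T) :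
    ∃ d : ℕ → Finset Node, d 0 = d0 ∧ (∀ i, (d i : Set Node) ⊆ T) ∧
      (∀ i, ∀ n ∈ d i, n ∈ cl {k | k ∈ (d (i + 1) : Set Node) ∧ n.1 < k.1}) ∧
      ∀ i, (d0 : Set Node) ⊆ cl (d i : Set Node) := by
  classical
  have key : ∀ e : {e : Finset Node // (e : Set Node) ⊆ T}, ∃ e' : {e : Finset Node // (e : Set Node) ⊆ T},
      ∀ n ∈ e.1, n ∈ cl {k | k ∈ (e'.1 : Set Node) ∧ n.1 < k.1} := by
    rintro ⟨e, he⟩
    have h1 : ∀ n : Node, ∃ F : Finset Node, (F : Set Node) ⊆ T ∧
        (n ∈ e → (F : Set Node) ⊆ {k | k ∈ T ∧ n.1 < k.1} ∧ n ∈ cl (F : Set Node)) := by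
      intro n
      by_cases hn : n ∈ e
      · obtain ⟨F, hF, hF'⟩ := cl_finitary (hT n (he hn))
        exact ⟨F, fun k hk => (hF hk).1, fun _ => ⟨hF, hF'⟩⟩
      · exact ⟨∅, by simp, fun h => absurd h hn⟩
    choose F hF hF' using h1
    refine ⟨⟨e.biUnion F, ?_⟩, ?_⟩
    · intro k hk
      simp only [Finset.coe_biUnion, Set.mem_iUnion] at hk
      obtain ⟨n, _, hk⟩ := hk
      exact hF n hk
    · intro n hn
      obtain ⟨h2, h3⟩ := hF' n hn
      refine cl_mono ?_ h3
      intro k hk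
      refine ⟨?_, (h2 hk).2⟩
      simp only [Finset.coe_biUnion, Set.mem_iUnion]
      exact ⟨n, hn, hk⟩
  choose f hf using key
  let d : ℕ → {e : Finset Node // (e : Set Node) ⊆ T} := fun i => Nat.rec ⟨d0, hd0⟩ (fun _ e => f e) i
  have h2 : ∀ i, ∀ n ∈ (d i).1, n ∈ cl {k | k ∈ ((d (i + 1)).1 : Set Node) ∧ n.1 < k.1} :=
    fun i n hn => hf (d i) n hn
  refine ⟨fun i => (d i).1, rfl, fun i => (d i).2, h2, ?_⟩
  intro i
  induction i with
  | zero => exact subset_cl _
  | succ i ih =>
    refine ih.trans (cl_le_cl ?_)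
    intro n hn
    refine cl_mono ?_ (h2 i n hn)
    intro k hk
    exact hk.1

/-- the list `[(d (r-1), ∅), …, (d 0, ∅)]`. -/
def stk (d : ℕ → Finset Node) : ℕ → List State
  | 0 => []
  | r + 1 => (d r, ∅) :: stk d r

theorem stk_tail (d : ℕ → Finset Node) (r : ℕ) : (stk d r).tail = stk d (r - 1) := by
  cases r <;> rfl

theorem val_stk {d : ℕ → Finset Node}
    (h : ∀ i, ∀ n ∈ d i, n ∈ cl {k | k ∈ (d (i + 1) : Set Node) ∧ n.1 < k.1}) (r : ℕ) :
    Val (stk d r) := by
  induction r with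
  | zero => trivial
  | succ r ih =>
    refine ⟨?_, ih⟩
    cases r with
    | zero => exact rel_empty _
    | succ r =>
      refine ⟨subset_rfl, ?_⟩
      intro n hn
      exact cl_mono Set.subset_union_left (h r n hn)

/-- the constant operation given by a stack. -/
def stackOp (d : ℕ → Finset Node)
    (h : ∀ i, ∀ n ∈ d i, n ∈ cl {k | k ∈ (d (i + 1) : Set Node) ∧ n.1 < k.1}) (k : ℕ) :
    (Fin (k + 1) → X) → X := fun w => ⟨stk d (len w), val_stk h _⟩

theorem stackOp_mem {T : Set Node} {d : ℕ → Finset Node}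
    (h : ∀ i, ∀ n ∈ d i, n ∈ cl {k | k ∈ (d (i + 1) : Set Node) ∧ n.1 < k.1})
    (hT : ∀ i, (d i : Set Node) ⊆ T) (k : ℕ) : stackOp d h k ∈ C T k := by
  refine ⟨?_, ?_, ?_⟩
  · intro w
    apply Subtype.ext
    show (stk d (len w)).tail = stk d (len (tls w))
    rw [stk_tail, len_tls]
  · intro w n hn
    apply subset_cl
    left
    have h1 : n ∈ (hdl (stk d (len w))).1 := hn
    generalize len w = r at h1
    cases r with
    | zero => simp [stk, hdl] at h1
    | succ r => exact hT r h1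
  · intro w n hn
    exfalso
    have h1 : n ∈ (hdl (stk d (len w))).2 := hn
    generalize len w = r at h1
    cases r with
    | zero => simp [stk, hdl] at h1
    | succ r => simp [stk, hdl] at h1

theorem hd_stackOp {d : ℕ → Finset Node}
    (h : ∀ i, ∀ n ∈ d i, n ∈ cl {k | k ∈ (d (i + 1) : Set Node) ∧ n.1 < k.1}) {k : ℕ}
    {w : Fin (k + 1) → X} (hw : len w ≠ 0) : ∃ i, (hd (stackOp d h k w)).1 = d i := by
  obtain ⟨r, hr⟩ : ∃ r, len w = r + 1 := ⟨len w - 1, by omega⟩
  refine ⟨r, ?_⟩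
  show (hdl (stk d (len w))).1 = _
  rw [hr]
  rfl

/-! ### The join -/

theorem C_sup {T1 T2 T : Set Node}
    (r1 : ∀ n ∈ T1, n ∈ cl {k | k ∈ T1 ∧ n.1 < k.1})
    (r2 : ∀ n ∈ T2, n ∈ cl {k | k ∈ T2 ∧ n.1 < k.1})
    (hT : T ⊆ cl (T1 ∪ T2)) {D : OpFam X} (hD : IsLocalClone D) (h1 : C T1 ≤ D) (h2 : C T2 ≤ D) :
    C T ≤ D := by
  classical
  intro n g hg
  refine hD.closed n g (fun P => ?_)
  -- bound for the lengths
  obtain ⟨N, hN⟩ : ∃ N, ∀ p ∈ P, len p ≤ N := ⟨P.sup len, fun p hp => Finset.le_sup hp⟩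
  -- finitely many generators
  have key : ∀ (p : Fin (n + 1) → X), ∃ F G : Finset Node, (F : Set Node) ⊆ T1 ∧
      (G : Set Node) ⊆ T2 ∧ ∀ m ∈ (hd (g p)).1, m ∈ cl ((F : Set Node) ∪ G ∪ Sup p) := by
    intro p
    have h3 : ∀ m ∈ (hd (g p)).1, m ∈ cl (T1 ∪ T2 ∪ Sup p) := by
      intro m hm
      refine cl_le_cl ?_ (hg.2.1 p m hm)
      apply Set.union_subset
      · exact hT.trans (cl_mono Set.subset_union_left)
      · exact Set.subset_union_right.trans (subset_cl _)
    have h4 : ∀ m : Node, ∃ F G : Finset Node, (F : Set Node) ⊆ T1 ∧ (G : Set Node) ⊆ T2 ∧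
        (m ∈ (hd (g p)).1 → m ∈ cl ((F : Set Node) ∪ G ∪ Sup p)) := by
      intro m
      by_cases hm : m ∈ (hd (g p)).1
      · obtain ⟨E, hE, hE'⟩ := cl_finitary (h3 m hm)
        refine ⟨E.filter (· ∈ T1), E.filter (· ∈ T2), ?_, ?_, fun _ => cl_mono ?_ hE'⟩
        · intro a ha
          simp only [Finset.coe_filter, Set.mem_ofPred_eq] at ha
          exact ha.2
        · intro a ha
          simp only [Finset.coe_filter, Set.mem_ofPred_eq] at ha
          exact ha.2
        · intro a ha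
          rcases hE ha with (h5 | h5) | h5
          · left; left
            simp only [Finset.coe_filter, Set.mem_ofPred_eq]
            exact ⟨ha, h5⟩
          · left; right
            simp only [Finset.coe_filter, Set.mem_ofPred_eq]
            exact ⟨ha, h5⟩
          · exact Or.inr h5
      · exact ⟨∅, ∅, by simp, by simp, fun h => absurd h hm⟩
    choose F G hF hG hFG using h4
    refine ⟨(hd (g p)).1.biUnion F, (hd (g p)).1.biUnion G, ?_, ?_, ?_⟩
    · intro a ha
      simp only [Finset.coe_biUnion, Set.mem_iUnion] at ha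
      obtain ⟨m, _, ha⟩ := ha
      exact hF m ha
    · intro a ha
      simp only [Finset.coe_biUnion, Set.mem_iUnion] at ha
      obtain ⟨m, _, ha⟩ := ha
      exact hG m ha
    · intro m hm
      refine cl_mono ?_ (hFG m hm)
      apply Set.union_subset_union_left
      apply Set.union_subset_union
      · intro a ha
        simp only [Finset.coe_biUnion, Set.mem_iUnion]
        exact ⟨m, hm, ha⟩
      · intro a ha
        simp only [Finset.coe_biUnion, Set.mem_iUnion]
        exact ⟨m, hm, ha⟩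
  choose F G hF hG hFG using key
  -- the initial sets
  let it : (Fin (n + 1) → X) → ℕ → (Fin (n + 1) → X) := fun p r => tls^[r] p
  let F0 : Finset Node := P.biUnion fun p => (Finset.range (N + 1)).biUnion fun r => F (it p r)
  let G0 : Finset Node := P.biUnion fun p => (Finset.range (N + 1)).biUnion fun r => G (it p r)
  have hF0 : (F0 : Set Node) ⊆ T1 := by
    intro a ha
    simp only [F0, Finset.coe_biUnion, Set.mem_iUnion] at ha
    obtain ⟨_, _, _, _, ha⟩ := ha
    exact hF _ ha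
  have hG0 : (G0 : Set Node) ⊆ T2 := by
    intro a ha
    simp only [G0, Finset.coe_biUnion, Set.mem_iUnion] at ha
    obtain ⟨_, _, _, _, ha⟩ := ha
    exact hG _ ha
  obtain ⟨d, hd0, hdT, hdr, hdc⟩ := exists_stack r1 F0 hF0
  obtain ⟨e, he0, heT, her, hec⟩ := exists_stack r2 G0 hG0
  -- the good arguments
  let P' : Set (Fin (n + 1) → X) := {p | ∀ r, ∀ m ∈ (hd (g (it p r))).1,
    m ∈ cl ((F0 : Set Node) ∪ G0 ∪ Sup (it p r))}
  have hlen : ∀ (p : Fin (n + 1) → X) (r : ℕ), len (it p r) = len p - r := by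
    intro p r
    induction r with
    | zero => rfl
    | succ r ih =>
      show len (tls^[r + 1] p) = _
      rw [Function.iterate_succ_apply', len_tls]
      have : len (tls^[r] p) = len p - r := ih
      omega
  have hnil : ∀ p : Fin (n + 1) → X, len p = 0 → (hd (g p)).1 = ∅ := by
    intro p hp
    have h3 := hg.1 p
    rw [tls_of_len hp] at h3
    rw [eq_nil_of_tl h3]; rfl
  have hP : ∀ p ∈ P, p ∈ P' := by
    intro p hp r m hm
    rcases Nat.lt_or_ge r (N + 1) with h3 | h3
    · refine cl_mono ?_ (hFG _ m hm)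
      apply Set.union_subset_union_left
      apply Set.union_subset_union
      · intro a ha
        simp only [F0, Finset.coe_biUnion, Set.mem_iUnion]
        exact ⟨p, hp, r, Finset.mem_coe.2 (Finset.mem_range.2 h3), ha⟩
      · intro a ha
        simp only [G0, Finset.coe_biUnion, Set.mem_iUnion]
        exact ⟨p, hp, r, Finset.mem_coe.2 (Finset.mem_range.2 h3), ha⟩
    · exfalso
      have h4 : len (it p r) = 0 := by
        rw [hlen]; have := hN p hp; omega
      rw [hnil _ h4] at hm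
      simp at hm
  have hP'tl : ∀ p ∈ P', tls p ∈ P' := by
    intro p hp r
    have h3 := hp (r + 1)
    have h4 : it p (r + 1) = it (tls p) r := Function.iterate_succ_apply _ _ _
    rw [h4] at h3
    exact h3
  -- the operations
  let u := stackOp d hdr n
  let v := stackOp e her n
  have hu : u ∈ C T1 n := stackOp_mem hdr hdT n
  have hv : v ∈ C T2 n := stackOp_mem her heT n
  let pr : (Fin (n + 2 + 1) → X) → (Fin (n + 1) → X) := fun w i => w i.castSucc.castSucc
  let Q : Set (Fin (n + 2 + 1) → X) := {w | pr w ∈ P' ∧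
    w (Fin.last (n + 1)).castSucc = u (pr w) ∧ w (Fin.last (n + 2)) = v (pr w)}
  obtain ⟨f, hf, hfQ⟩ := extend (k := n + 2) Q (fun w => g (pr w)) (by
      rintro w ⟨ha, hb, hc⟩
      refine ⟨hP'tl _ ha, ?_, ?_⟩
      · show tl (w (Fin.last (n + 1)).castSucc) = u (tls (pr w))
        rw [hb, hu.1]
      · show tl (w (Fin.last (n + 2))) = v (tls (pr w))
        rw [hc, hv.1]) (by
      rintro w _
      exact hg.1 (pr w)) (by
      rintro w ⟨ha, hb, hc⟩ m hm
      have h3 := ha 0 m hm
      by_cases h0 : len (pr w) = 0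
      · rw [hnil _ h0] at hm
        simp at hm
      refine cl_le_cl ?_ h3
      apply Set.union_subset
      apply Set.union_subset
      · obtain ⟨i, hi⟩ := hd_stackOp hdr h0
        refine (hdc i).trans (cl_mono ?_)
        rw [← hi]
        intro a ha
        rw [mem_Sup]
        left
        refine ⟨(Fin.last (n + 1)).castSucc, ?_⟩
        rw [hb]; exact ha
      · obtain ⟨i, hi⟩ := hd_stackOp her h0
        refine (hec i).trans (cl_mono ?_)
        rw [← hi]
        intro a ha
        rw [mem_Sup]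
        left
        refine ⟨Fin.last (n + 2), ?_⟩
        rw [hc]; exact ha
      · intro a ha
        apply subset_cl
        have ha' : a ∈ Sup (pr w) := ha
        rw [mem_Sup] at ha' ⊢
        rcases ha' with ⟨i, hi⟩ | ⟨i, hi⟩
        · exact Or.inl ⟨_, hi⟩
        · exact Or.inr ⟨_, hi⟩) (by
      rintro w _ a ha
      have h3 := hg.2.2 (pr w) ha
      rw [mem_U2] at h3 ⊢
      obtain ⟨i, hi⟩ := h3
      exact ⟨_, hi⟩)
  -- the composition
  let hs : Fin (n + 2 + 1) → (Fin (n + 1) → X) → X :=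
    Fin.snoc (α := fun _ => (Fin (n + 1) → X) → X)
      (Fin.snoc (α := fun _ => (Fin (n + 1) → X) → X) (fun i p => p i) u) v
  refine ⟨fun p => f (fun i => hs i p), hD.comp (n + 2) n f hs ?_ ?_, ?_⟩
  · exact h1 _ (C_mono (Set.empty_subset _) _ hf)
  · intro i
    refine Fin.lastCases ?_ (fun i => ?_) i
    · simp only [hs, Fin.snoc_last]
      exact h2 _ hv
    · refine Fin.lastCases ?_ (fun i => ?_) i
      · simp only [hs, Fin.snoc_castSucc, Fin.snoc_last]
        exact h1 _ hu
      · simp only [hs, Fin.snoc_castSucc]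
        exact hD.proj n i
  · intro p hp
    have hpr : pr (fun i => hs i p) = p := by
      funext i
      show hs i.castSucc.castSucc p = p i
      simp only [hs, Fin.snoc_castSucc]
    have h3 : (fun i => hs i p) ∈ Q := by
      refine ⟨?_, ?_, ?_⟩
      · rw [hpr]; exact hP p hp
      · rw [hpr]
        show hs (Fin.last (n + 1)).castSucc p = u p
        simp only [hs, Fin.snoc_castSucc, Fin.snoc_last]
      · rw [hpr]
        show hs (Fin.last (n + 2)) p = v p
        simp only [hs, Fin.snoc_last]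
    show f (fun i => hs i p) = g p
    rw [hfQ _ h3, hpr]

end Pool.Agent.helper51.Clo
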