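import Mathlib
import Pool.Agent.helper51.Clo.Ext
import Pool.Agent.helper51.Clo.Join

/-!
# Lattices of size at most `ℵ₁` without infinite chains embed in the lattice of local clones
-/

set_option autoImplicit false

namespace Pool.Agent.helper51.Clo

theorem exists_wo (L : Type) (hL : Cardinal.mk L ≤ Cardinal.aleph 1) :
    ∃ (r : L → L → Prop) (_ : IsWellOrder L r), ∀ x, {y | r y x}.Countable := by
  obtain ⟨r, hr, h⟩ := Cardinal.exists_ord_eq L
  refine ⟨r, hr, fun x => ?_⟩
  have h1 := Cardinal.card_typein_lt x h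
  rw [Ordinal.card_typein] at h1
  have h2 : Cardinal.mk {y | r y x} < Cardinal.aleph 1 := lt_of_lt_of_le h1 hL
  rw [Cardinal.lt_aleph_one_iff, Cardinal.le_aleph0_iff_set_countable] at h2
  exact h2

section Main

variable {L : Type} [Lattice L] [BoundedOrder L]

omit [BoundedOrder L] in
/-- closing off: every countable set is contained in a countable sublattice that is an initial
segment of `r`. -/
theorem exists_closure (r : L → L → Prop) (hr : ∀ x, {y | r y x}.Countable) (A : Set L)
    (hA : A.Countable) : ∃ S : Set L, A ⊆ S ∧ S.Countable ∧ (∀ x ∈ S, ∀ y ∈ S, x ⊔ y ∈ S) ∧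
      (∀ x ∈ S, ∀ y ∈ S, x ⊓ y ∈ S) ∧ ∀ x ∈ S, ∀ y, r y x → y ∈ S := by
  classical
  let F : Set L → Set L := fun B =>
    B ∪ (⋃ x ∈ B, {y | r y x}) ∪ (⋃ x ∈ B, ⋃ y ∈ B, {x ⊔ y, x ⊓ y})
  have hF : ∀ B : Set L, B.Countable → (F B).Countable := by
    intro B hB
    refine (hB.union (hB.biUnion fun x _ => hr x)).union
      (hB.biUnion fun x _ => hB.biUnion fun y _ => ?_)
    exact (Set.toFinite _).countable
  let g : ℕ → Set L := fun n => F^[n] A
  have hg0 : g 0 = A := rfl
  have hgs : ∀ n, g (n + 1) = F (g n) := fun n => Function.iterate_succ_apply' F n A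
  have hgc : ∀ n, (g n).Countable := by
    intro n
    induction n with
    | zero => exact hA
    | succ n ih => rw [hgs]; exact hF _ ih
  have hsub : ∀ n, g n ⊆ g (n + 1) := by
    intro n x hx
    rw [hgs]
    exact Or.inl (Or.inl hx)
  have hmono : Monotone g := monotone_nat_of_le_succ hsub
  refine ⟨⋃ n, g n, ?_, Set.countable_iUnion hgc, ?_, ?_, ?_⟩
  · exact Set.subset_iUnion g 0
  · intro x hx y hy
    obtain ⟨a, ha⟩ := Set.mem_iUnion.1 hx
    obtain ⟨b, hb⟩ := Set.mem_iUnion.1 hy
    refine Set.mem_iUnion.2 ⟨max a b + 1, ?_⟩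
    rw [hgs]
    right
    simp only [Set.mem_iUnion]
    exact ⟨x, hmono (le_max_left a b) ha, y, hmono (le_max_right a b) hb, Or.inl rfl⟩
  · intro x hx y hy
    obtain ⟨a, ha⟩ := Set.mem_iUnion.1 hx
    obtain ⟨b, hb⟩ := Set.mem_iUnion.1 hy
    refine Set.mem_iUnion.2 ⟨max a b + 1, ?_⟩
    rw [hgs]
    right
    simp only [Set.mem_iUnion]
    exact ⟨x, hmono (le_max_left a b) ha, y, hmono (le_max_right a b) hb, Or.inr rfl⟩
  · intro x hx y hy
    obtain ⟨a, ha⟩ := Set.mem_iUnion.1 hx
    refine Set.mem_iUnion.2 ⟨a + 1, ?_⟩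
    rw [hgs]
    left; right
    simp only [Set.mem_iUnion]
    exact ⟨x, ha, hy⟩

/-- the trivial good assignment. -/
theorem good_base (hne : (⊥ : L) ≠ ⊤) :
    ∃ T : L → Set Node, Good ({⊥, ⊤} : Set L) T := by
  classical
  refine ⟨fun x => if x = ⊤ then Set.univ else ∅, ?_⟩
  have hb : (if (⊥ : L) = ⊤ then (Set.univ : Set Node) else ∅) = ∅ := if_neg hne
  have ht : (if (⊤ : L) = ⊤ then (Set.univ : Set Node) else ∅) = Set.univ := if_pos rfl
  exact {
    bot_mem := Or.inl rfl
    top_mem := Or.inr rfl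
    sup_mem := by
      rintro x (rfl | rfl) y (rfl | rfl) <;> simp
    inf_mem := by
      rintro x (rfl | rfl) y (rfl | rfl) <;> simp
    bot := hb
    top := ht
    closed := by
      rintro x (rfl | rfl)
      · rw [hb]; intro j _ h _; exact absurd h (Set.notMem_empty _)
      · rw [ht]; intro j _ _ _; trivial
    mono := by
      rintro x (rfl | rfl) y (rfl | rfl) h
      · exact subset_rfl
      · rw [hb]; exact Set.empty_subset _
      · exact absurd (top_le_iff.1 h) hne
      · exact subset_rfl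
    fin := by
      rintro x (rfl | rfl) y (rfl | rfl)
      · rw [hb]; simp
      · rw [hb]; simp
      · rw [hb]; simp
      · rw [inf_idem, ht]; simp
    rich := by
      rintro x (rfl | rfl) y (rfl | rfl) hx hy m _ V hV b
      · exact absurd rfl hx
      · exact absurd rfl hx
      · exact absurd rfl hy
      · obtain ⟨j, hj, hsj⟩ := exists_rule m b
        refine ⟨j, hj, hsj, by rw [ht]; trivial, by rw [ht]; trivial, ?_⟩
        intro v hv
        rcases hV v hv with rfl | rfl
        · rw [hb]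
          exact ⟨fun h => absurd h (Set.notMem_empty _), fun h => absurd h (Set.notMem_empty _)⟩
        · exact ⟨fun _ => le_rfl, fun _ => le_rfl⟩ }

theorem exists_good_univ (hL : Cardinal.mk L ≤ Cardinal.aleph 1)
    (hlt : WellFounded ((· < ·) : L → L → Prop))
    (hgt : WellFounded ((· > ·) : L → L → Prop)) (hne : (⊥ : L) ≠ ⊤) :
    ∃ T : L → Set Node, Good (Set.univ : Set L) T := by
  classical
  obtain ⟨r, hrwo, hrc⟩ := exists_wo L hL
  let Pr : Type := {p : Set L × (L → Set Node) // Good p.1 p.2 ∧ ∀ x ∈ p.1, ∀ y, r y x → y ∈ p.1}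
  let R : Pr → Pr → Prop := fun p q => p.1.1 ⊆ q.1.1 ∧ ∀ x ∈ p.1.1, q.1.2 x = p.1.2 x
  -- a base point
  have hbase : Nonempty Pr := by
    obtain ⟨T, hT⟩ := good_base hne
    obtain ⟨S, hS1, hS2, hS3, hS4, hS5⟩ := exists_closure r hrc ({⊥, ⊤} : Set L)
      (Set.toFinite _).countable
    obtain ⟨T', hT', _⟩ := extend_good hlt hgt hne hT hS1 hS2 hS3 hS4
    exact ⟨⟨(S, T'), hT', hS5⟩⟩
  have htrans : ∀ {a b c : Pr}, R a b → R b c → R a c := by
    intro a b c hab hbc
    refine ⟨hab.1.trans hbc.1, fun x hx => ?_⟩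
    rw [hbc.2 x (hab.1 hx), hab.2 x hx]
  obtain ⟨M, hM⟩ := exists_maximal_of_nonempty_chains_bounded (r := R) (by
    intro c hc hcne
    obtain ⟨p0, hp0⟩ := hcne
    let S : Set L := ⋃ p ∈ c, p.1.1
    have hSmem : ∀ {x}, x ∈ S ↔ ∃ p ∈ c, x ∈ p.1.1 := by
      intro x; simp [S]
    have hsel : ∀ x : L, ∃ A : Set Node, ∀ p ∈ c, x ∈ p.1.1 → p.1.2 x = A := by
      intro x
      by_cases hx : ∃ p ∈ c, x ∈ p.1.1
      · obtain ⟨p, hp, hxp⟩ := hx
        refine ⟨p.1.2 x, fun q hq hxq => ?_⟩
        rcases eq_or_ne p q with rfl | hpq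
        · rfl
        · rcases hc hp hq hpq with h | h
          · exact h.2 x hxp
          · exact (h.2 x hxq).symm
      · exact ⟨∅, fun p hp hxp => absurd ⟨p, hp, hxp⟩ hx⟩
    choose T hT using hsel
    -- finitely many elements lie in one member
    have hfin : ∀ V : Finset L, (∀ v ∈ V, v ∈ S) → ∃ p ∈ c, ∀ v ∈ V, v ∈ p.1.1 := by
      intro V
      induction V using Finset.induction_on with
      | empty => intro _; exact ⟨p0, hp0, by simp⟩
      | insert a V ha ih =>
        intro hV
        obtain ⟨p, hp, hpV⟩ := ih (fun v hv => hV v (Finset.mem_insert_of_mem hv))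
        obtain ⟨q, hq, haq⟩ := hSmem.1 (hV a (Finset.mem_insert_self _ _))
        rcases eq_or_ne p q with rfl | hpq
        · refine ⟨p, hp, fun v hv => ?_⟩
          rcases Finset.mem_insert.1 hv with rfl | hv
          · exact haq
          · exact hpV v hv
        · rcases hc hp hq hpq with h | h
          · refine ⟨q, hq, fun v hv => ?_⟩
            rcases Finset.mem_insert.1 hv with rfl | hv
            · exact haq
            · exact h.1 (hpV v hv)
          · refine ⟨p, hp, fun v hv => ?_⟩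
            rcases Finset.mem_insert.1 hv with rfl | hv
            · exact h.1 haq
            · exact hpV v hv
    have htwo : ∀ x ∈ S, ∀ y ∈ S, ∃ p ∈ c, x ∈ p.1.1 ∧ y ∈ p.1.1 := by
      intro x hx y hy
      obtain ⟨p, hp, hpV⟩ := hfin {x, y} (by
        intro v hv
        rcases Finset.mem_insert.1 hv with rfl | hv
        · exact hx
        · rw [Finset.mem_singleton.1 hv]; exact hy)
      exact ⟨p, hp, hpV x (by simp), hpV y (by simp)⟩
    have hTe : ∀ p ∈ c, ∀ x ∈ p.1.1, T x = p.1.2 x := fun p hp x hx => (hT x p hp hx).symm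
    refine ⟨⟨(S, T), ?_, ?_⟩, ?_⟩
    · exact {
        bot_mem := hSmem.2 ⟨p0, hp0, p0.2.1.bot_mem⟩
        top_mem := hSmem.2 ⟨p0, hp0, p0.2.1.top_mem⟩
        sup_mem := by
          intro x hx y hy
          obtain ⟨p, hp, hxp, hyp⟩ := htwo x hx y hy
          exact hSmem.2 ⟨p, hp, p.2.1.sup_mem _ hxp _ hyp⟩
        inf_mem := by
          intro x hx y hy
          obtain ⟨p, hp, hxp, hyp⟩ := htwo x hx y hy
          exact hSmem.2 ⟨p, hp, p.2.1.inf_mem _ hxp _ hyp⟩
        bot := by
          show T ⊥ = ∅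
          rw [hTe p0 hp0 _ p0.2.1.bot_mem, p0.2.1.bot]
        top := by
          show T ⊤ = Set.univ
          rw [hTe p0 hp0 _ p0.2.1.top_mem, p0.2.1.top]
        closed := by
          intro x hx
          obtain ⟨p, hp, hxp⟩ := hSmem.1 hx
          show Closed (T x)
          rw [hTe p hp _ hxp]
          exact p.2.1.closed _ hxp
        mono := by
          intro x hx y hy hxy
          obtain ⟨p, hp, hxp, hyp⟩ := htwo x hx y hy
          show T x ⊆ T y
          rw [hTe p hp _ hxp, hTe p hp _ hyp]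
          exact p.2.1.mono _ hxp _ hyp hxy
        fin := by
          intro x hx y hy
          obtain ⟨p, hp, hxp, hyp⟩ := htwo x hx y hy
          show ((T x ∩ T y) \ T (x ⊓ y)).Finite
          rw [hTe p hp _ hxp, hTe p hp _ hyp, hTe p hp _ (p.2.1.inf_mem _ hxp _ hyp)]
          exact p.2.1.fin _ hxp _ hyp
        rich := by
          intro x hx y hy hx0 hy0 m hm V hV b
          obtain ⟨p, hp, hpV⟩ := hfin (insert x (insert y V)) (by
            intro v hv
            rcases Finset.mem_insert.1 hv with rfl | hv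
            · exact hx
            · rcases Finset.mem_insert.1 hv with rfl | hv
              · exact hy
              · exact hV v hv)
          have hxp := hpV x (by simp)
          have hyp := hpV y (by simp)
          have hVp : ∀ v ∈ V, v ∈ p.1.1 := fun v hv => hpV v (by simp [hv])
          have hm' : m ∈ p.1.2 (x ⊔ y) := by
            rw [← hTe p hp _ (p.2.1.sup_mem _ hxp _ hyp)]; exact hm
          obtain ⟨j, h1, h2, h3, h4, h5⟩ := p.2.1.rich _ hxp _ hyp hx0 hy0 m hm' V hVp b
          refine ⟨j, h1, h2, ?_, ?_, ?_⟩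
          · show _ ∈ T x
            rw [hTe p hp _ hxp]; exact h3
          · show _ ∈ T y
            rw [hTe p hp _ hyp]; exact h4
          · intro v hv
            show (_ ∈ T v → _) ∧ (_ ∈ T v → _)
            rw [hTe p hp _ (hVp v hv)]
            exact h5 v hv }
    · intro x hx y hy
      obtain ⟨p, hp, hxp⟩ := hSmem.1 hx
      exact hSmem.2 ⟨p, hp, p.2.2 x hxp y hy⟩
    · intro p hp
      exact ⟨fun x hx => hSmem.2 ⟨p, hp, hx⟩, fun x hx => hTe p hp x hx⟩) htrans
  -- the maximal element is total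
  by_cases huniv : M.1.1 = Set.univ
  · exact ⟨M.1.2, huniv ▸ M.2.1⟩
  · exfalso
    obtain ⟨z, hz⟩ := (Set.ne_univ_iff_exists_notMem _).1 huniv
    have hcount : M.1.1.Countable := by
      refine (hrc z).mono ?_
      intro x hx
      rcases trichotomous_of r x z with h | h | h
      · exact h
      · rw [h] at hx; exact absurd hx hz
      · exact absurd (M.2.2 x hx z h) hz
    obtain ⟨S, hS1, hS2, hS3, hS4, hS5⟩ := exists_closure r hrc (insert z M.1.1)
      (hcount.insert z)
    obtain ⟨T', hT', hT''⟩ := extend_good hlt hgt hne M.2.1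
      ((Set.subset_insert z _).trans hS1) hS2 hS3 hS4
    have h1 : R M ⟨(S, T'), hT', hS5⟩ := ⟨(Set.subset_insert z _).trans hS1, hT''⟩
    exact hz ((hM _ h1).1 (hS1 (Set.mem_insert z _)))

end Main

/-- `L` admits a lattice embedding into the lattice of local clones on `Y`. -/
def Embeds (L Y : Type) [Lattice L] : Prop :=
  ∃ f : L → OpFam Y, Function.Injective f ∧ (∀ a, IsLocalClone (f a)) ∧
    (∀ a b, f (a ⊓ b) = f a ⊓ f b) ∧
    (∀ a b, f a ≤ f (a ⊔ b) ∧ f b ≤ f (a ⊔ b)) ∧
    (∀ a b D, IsLocalClone D → f a ≤ D → f b ≤ D → f (a ⊔ b) ≤ D)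

theorem embeds_of_good {L : Type} [Lattice L] [BoundedOrder L] {T : L → Set Node}
    (hT : Good (Set.univ : Set L) T) (hne : (⊥ : L) ≠ ⊤) : Embeds L X := by
  classical
  have mono : ∀ {x y : L}, x ≤ y → T x ⊆ T y := fun {x y} h =>
    hT.mono x trivial y trivial h
  have rich1 : ∀ x : L, ∀ n ∈ T x, n ∈ cl {k | k ∈ T x ∧ n.1 < k.1} := by
    intro x n hn
    by_cases hx : x = ⊥
    · rw [hx, hT.bot] at hn; exact absurd hn (Set.notMem_empty _)
    · obtain ⟨j, h1, h2, h3, h4, _⟩ := hT.rich x trivial x trivial hx hx n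
        (by rw [sup_idem]; exact hn) ∅ (by simp) n.1
      rw [← h2] at h1 ⊢
      exact Cl.step j h1 (Cl.base _ ⟨h3, h1⟩) (Cl.base _ ⟨h4, h1⟩)
  have join : ∀ x y : L, T (x ⊔ y) ⊆ cl (T x ∪ T y) := by
    intro x y n hn
    by_cases hx : x = ⊥
    · subst hx
      rw [bot_sup_eq] at hn
      exact subset_cl _ (Or.inr hn)
    · by_cases hy : y = ⊥
      · subst hy
        rw [sup_bot_eq] at hn
        exact subset_cl _ (Or.inl hn)
      · obtain ⟨j, h1, h2, h3, h4, _⟩ := hT.rich x trivial y trivial hx hy n hn ∅ (by simp) n.1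
        rw [← h2] at h1 ⊢
        exact Cl.step j h1 (Cl.base _ (Or.inl h3)) (Cl.base _ (Or.inr h4))
  have refl : ∀ {x y : L}, C (T x) ≤ C (T y) → x ≤ y := by
    intro x y h
    by_contra hxy
    have hx : x ≠ ⊥ := fun hx => hxy (hx ▸ bot_le)
    obtain ⟨j, _, _, h3, _, h5⟩ := hT.rich x trivial ⊤ trivial hx hne.symm (0, false)
      (by rw [sup_top_eq, hT.top]; trivial) {y} (fun _ _ => trivial) 0
    have hj : (j, false) ∉ T y := fun h' => hxy ((h5 y (by simp)).1 h')
    obtain ⟨d, hd0, hdT, hdr, _⟩ := exists_stack (rich1 x) {(j, false)} (by simpa using h3)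
    have h6 := h 0 (stackOp_mem hdr hdT 0)
    -- evaluate at a list of length one with empty state
    let p0 : X := ⟨[((∅, ∅) : State)], ⟨rel_empty _, trivial⟩⟩
    have h7 := h6.2.1 (fun _ => p0) (j, false) (by
      have hlen : len (fun _ : Fin (0 + 1) => p0) = 1 := by
        simp [len, p0]
      show (j, false) ∈ (hdl (stk d (len (fun _ : Fin (0 + 1) => p0)))).1
      rw [hlen]
      show (j, false) ∈ d 0
      rw [hd0]; simp)
    have h8 : Sup (fun _ : Fin (0 + 1) => p0) = ∅ := by
      ext n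
      rw [mem_Sup]
      constructor
      · rintro (⟨_, h⟩ | ⟨_, h⟩) <;> exact absurd h (Finset.notMem_empty _)
      · intro h; exact absurd h (Set.notMem_empty _)
    rw [h8, Set.union_empty, cl_eq (hT.closed y trivial)] at h7
    exact hj h7
  refine ⟨fun x => C (T x), ?_, fun x => isLocalClone_C _, ?_, ?_, ?_⟩
  · intro x y hxy
    exact le_antisymm (refl (le_of_eq hxy)) (refl (le_of_eq hxy.symm))
  · intro x y
    apply le_antisymm
    · exact le_inf (C_mono (mono inf_le_left)) (C_mono (mono inf_le_right))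
    · exact C_inf (hT.closed x trivial) (hT.closed y trivial) (hT.fin x trivial y trivial)
  · intro x y
    exact ⟨C_mono (mono le_sup_left), C_mono (mono le_sup_right)⟩
  · intro x y D hD h1 h2
    exact C_sup (rich1 x) (rich1 y) (join x y) hD h1 h2

/-! ### Transport to `ℕ` -/

theorem Embeds.transport {L Y Z : Type} [Lattice L] (e : Y ≃ Z) (h : Embeds L Y) :
    Embeds L Z := by
  classical
  obtain ⟨f, hinj, hcl, hinf, hsup, hleast⟩ := h
  -- conjugation
  let cj : ∀ {n : ℕ}, ((Fin (n + 1) → Z) → Z) → (Fin (n + 1) → Y) → Y :=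
    fun g x => e.symm (g (fun i => e (x i)))
  let jc : ∀ {n : ℕ}, ((Fin (n + 1) → Y) → Y) → (Fin (n + 1) → Z) → Z :=
    fun g x => e (g (fun i => e.symm (x i)))
  have cjjc : ∀ {n : ℕ} (g : (Fin (n + 1) → Y) → Y), cj (jc g) = g := by
    intro n g; funext x; simp [cj, jc]
  have jccj : ∀ {n : ℕ} (g : (Fin (n + 1) → Z) → Z), jc (cj g) = g := by
    intro n g; funext x; simp [cj, jc]
  let Φ : OpFam Y → OpFam Z := fun C n => {g | cj g ∈ C n}
  let Ψ : OpFam Z → OpFam Y := fun C n => {g | jc g ∈ C n}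
  have hΦ : ∀ {C : OpFam Y}, IsLocalClone C → IsLocalClone (Φ C) := by
    intro C hC
    refine ⟨?_, ?_, ?_⟩
    · intro n i
      have : cj (fun x : Fin (n + 1) → Z => x i) = fun x => x i := by
        funext x; simp [cj]
      show cj (fun x : Fin (n + 1) → Z => x i) ∈ C n
      rw [this]; exact hC.proj n i
    · intro n m g hs hg hhs
      have : cj (fun x : Fin (m + 1) → Z => g (fun i => hs i x)) =
          fun x => cj g (fun i => cj (hs i) x) := by
        funext x; simp [cj]
      show cj (fun x : Fin (m + 1) → Z => g (fun i => hs i x)) ∈ C m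
      rw [this]; exact hC.comp n m _ _ hg hhs
    · intro n g h
      show cj g ∈ C n
      refine hC.closed n _ (fun F => ?_)
      obtain ⟨k, hk, hkF⟩ := h (F.image (fun x i => e (x i)))
      refine ⟨cj k, hk, fun x hx => ?_⟩
      show e.symm (k _) = e.symm (g _)
      rw [hkF _ (Finset.mem_image.2 ⟨x, hx, rfl⟩)]
  have hΨ : ∀ {C : OpFam Z}, IsLocalClone C → IsLocalClone (Ψ C) := by
    intro C hC
    refine ⟨?_, ?_, ?_⟩
    · intro n i
      have : jc (fun x : Fin (n + 1) → Y => x i) = fun x => x i := by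
        funext x; simp [jc]
      show jc (fun x : Fin (n + 1) → Y => x i) ∈ C n
      rw [this]; exact hC.proj n i
    · intro n m g hs hg hhs
      have : jc (fun x : Fin (m + 1) → Y => g (fun i => hs i x)) =
          fun x => jc g (fun i => jc (hs i) x) := by
        funext x; simp [jc]
      show jc (fun x : Fin (m + 1) → Y => g (fun i => hs i x)) ∈ C m
      rw [this]; exact hC.comp n m _ _ hg hhs
    · intro n g h
      show jc g ∈ C n
      refine hC.closed n _ (fun F => ?_)
      obtain ⟨k, hk, hkF⟩ := h (F.image (fun x i => e.symm (x i)))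
      refine ⟨jc k, hk, fun x hx => ?_⟩
      show e (k _) = e (g _)
      rw [hkF _ (Finset.mem_image.2 ⟨x, hx, rfl⟩)]
  refine ⟨fun a => Φ (f a), ?_, fun a => hΦ (hcl a), ?_, ?_, ?_⟩
  · intro a b hab
    apply hinj
    funext n
    ext g
    have h1 : jc g ∈ Φ (f a) n ↔ jc g ∈ Φ (f b) n := by
      show jc g ∈ (fun a => Φ (f a)) a n ↔ jc g ∈ (fun a => Φ (f a)) b n
      rw [hab]
    have h2 : jc g ∈ Φ (f a) n ↔ g ∈ f a n := by
      show cj (jc g) ∈ f a n ↔ _
      rw [cjjc]
    have h3 : jc g ∈ Φ (f b) n ↔ g ∈ f b n := by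
      show cj (jc g) ∈ f b n ↔ _
      rw [cjjc]
    rw [← h2, ← h3]; exact h1
  · intro a b
    show Φ (f (a ⊓ b)) = Φ (f a) ⊓ Φ (f b)
    rw [hinf]; rfl
  · intro a b
    exact ⟨fun n g hg => (hsup a b).1 n hg, fun n g hg => (hsup a b).2 n hg⟩
  · intro a b D hD ha hb n g hg
    have h1 := hleast a b (Ψ D) (hΨ hD)
      (fun n g hg => ha n (by show cj (jc g) ∈ f a n; rw [cjjc]; exact hg))
      (fun n g hg => hb n (by show cj (jc g) ∈ f b n; rw [cjjc]; exact hg))
    have h2 : cj g ∈ Ψ D n := h1 n hg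
    have h3 : jc (cj g) ∈ D n := h2
    rwa [jccj] at h3

/-- Every lattice with at most `ℵ₁` elements and no infinite ascending or descending chain embeds
in the lattice of local clones on `ℕ`. -/
theorem embeds_of_le_aleph_one (L : Type) [Lattice L] (hL : Cardinal.mk L ≤ Cardinal.aleph 1)
    (hlt : WellFounded ((· < ·) : L → L → Prop))
    (hgt : WellFounded ((· > ·) : L → L → Prop)) : Embeds L ℕ := by
  classical
  obtain ⟨e⟩ : Nonempty (X ≃ ℕ) := nonempty_equiv_of_countable
  rcases isEmpty_or_nonempty L with hE | hN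
  · exact ⟨fun a => hE.elim a, fun a => hE.elim a, fun a => hE.elim a, fun a => hE.elim a,
      fun a => hE.elim a, fun a => hE.elim a⟩
  · obtain ⟨b, _, hb⟩ := hlt.has_min Set.univ Set.univ_nonempty
    obtain ⟨t, _, ht⟩ := hgt.has_min Set.univ Set.univ_nonempty
    have hb' : ∀ x, b ≤ x := by
      intro x
      have h1 : ¬ b ⊓ x < b := hb _ trivial
      rcases (inf_le_left : b ⊓ x ≤ b).lt_or_eq with h | h
      · exact absurd h h1
      · exact inf_eq_left.1 h
    have ht' : ∀ x, x ≤ t := by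
      intro x
      have h1 : ¬ t < t ⊔ x := ht _ trivial
      rcases (le_sup_left : t ≤ t ⊔ x).lt_or_eq with h | h
      · exact absurd h h1
      · exact sup_eq_left.1 h.symm
    let _ : BoundedOrder L := { top := t, le_top := ht', bot := b, bot_le := hb' }
    by_cases hne : (⊥ : L) = ⊤
    · -- one element
      have hsub : ∀ x y : L, x = y := by
        intro x y
        have h1 : x = ⊥ := le_antisymm (le_top.trans (le_of_eq hne.symm)) bot_le
        have h2 : y = ⊥ := le_antisymm (le_top.trans (le_of_eq hne.symm)) bot_le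
        rw [h1, h2]
      apply Embeds.transport e
      refine ⟨fun _ => C ∅, fun a b _ => hsub a b, fun _ => isLocalClone_C _, ?_, ?_, ?_⟩
      · intro a b; exact (inf_idem _).symm
      · intro a b; exact ⟨le_rfl, le_rfl⟩
      · intro a b D _ h _; exact h
    · obtain ⟨T, hT⟩ := exists_good_univ hL hlt hgt hne
      exact (embeds_of_good hT hne).transport e

end Pool.Agent.helper51.Clo
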